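import Mathlib
import Pool.Agent.R829.BG.Orbs
import Pool.Agent.H627.LR.Gd

/-!
Project AB: the dynamical Lehmer inequality for abelian points of rational maps of the projective
line.  Statements of the independent parts.
-/

set_option autoImplicit false
set_option linter.unusedSectionVars false

namespace Pool.Agent.N715.AB

open NumberField Module Polynomial Filter
open Pool.Agent.W238.Leh (act canH Bds hC)
open Pool.Agent.H627.LP (FrobAt)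
open Pool.Agent.H627.LR (GR GoodK)
open Pool.Agent.H627.LU (Classes)
open Pool.Agent.H420R3 (mi nv TP)
open Pool.Agent.R829.BG (XD)

noncomputable section

/-- evaluation of a bivariate polynomial over `K` at a point with coordinates in an extension -/
def ev {K L : Type} [Field K] [Field L] [Algebra K L] (x y : L) (G : K[X][X]) : L :=
  (G.map (mapRingHom (algebraMap K L))).evalEval x y

/-- (DET) the one-variable interpolation inequality with data depending on the place -/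
def DetVar : Prop :=
  ∀ (K : Type) [Field K] [NumberField K] (M : Type) [Field M] [NumberField M] [Algebra K M]
    (ι : Type) [Fintype ι] [DecidableEq ι]
    (F : Fin (1 + 1) → MvPolynomial (Fin (1 + 1)) K) (q c a : ℕ) (A : ℝ),
    Bds F q A a → 2 ≤ q → (∀ i, (F i).IsHomogeneous q) →
    (∀ m, c + q ≤ m → ∀ p : MvPolynomial (Fin (1 + 1)) K, p.IsHomogeneous m →
      p ∈ Ideal.span (Set.range F)) →
    ∀ p : ι → Fin (1 + 1) → M, (∀ i, p i ≠ 0) → (∀ i j, i ≠ j → ∀ b : M, p i ≠ b • p j) →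
    1 ≤ Fintype.card ι →
    ∀ T : Finset (FinitePlace M), (∀ v ∈ T, GR v F q) →
    ∀ t s : FinitePlace M → ℕ, (∀ v ∈ T, Classes v p ∅ (t v) (Real.log (nv v))) →
    ∀ H : ℝ, (∀ i, canH F q (p i) ≤ H) →
    ∑ v ∈ T, Real.log (nv v) * (s v * (Fintype.card ι - t v * s v : ℕ)) ≤
      finrank ℚ M * (Fintype.card ι * (Fintype.card ι * H +
        hC A a * ((c + q : ℕ) * (1 + Nat.log 2 (Fintype.card ι) : ℕ)) +
        Real.log (Fintype.card ι)))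

/-- (RAM) primes of good reduction ramified in the field of definition of a small point -/
def RamSum : Prop :=
  ∀ (K : Type) [Field K] [NumberField K] (L : Type) [Field L] [NumberField L] [Algebra K L]
    [IsGalois K L]
    (F : Fin (1 + 1) → MvPolynomial (Fin (1 + 1)) K) (q c a : ℕ) (A : ℝ),
    Bds F q A a → 2 ≤ q → (∀ i, (F i).IsHomogeneous q) →
    (∀ m, c + q ≤ m → ∀ p : MvPolynomial (Fin (1 + 1)) K, p.IsHomogeneous m →
      p ∈ Ideal.span (Set.range F)) →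
    ∀ x : Fin (1 + 1) → L, x ≠ 0 →
    (∀ σ : Gal(L/K), σ ≠ 1 → ∀ b : L, (fun i => σ (x i)) ≠ b • x) →
    ∀ S : Finset (Ideal (𝓞 K)),
    (∀ P ∈ S, P.IsMaximal ∧ P ≠ ⊥ ∧ GoodK P F q ∧
      ∀ w ∈ TP L P, 2 ≤ (mi w).ramificationIdx (𝓞 K)) →
    ∑ P ∈ S, Real.log (Ideal.absNorm P) ≤ 8 * finrank ℚ K * (finrank K L * canH F q x +
        hC A a * ((c + q : ℕ) * (1 + Nat.log 2 (finrank K L) : ℕ)) + Real.log (finrank K L))

/-- (SEL) a prime of small norm outside a thin set -/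
def PrimeSel : Prop :=
  ∀ κ nb : ℕ, 1 ≤ κ → nb ≠ 0 → ∃ C : ℝ, 0 < C ∧ ∀ (K : Type) [Field K] [NumberField K],
    finrank ℚ K ≤ κ → ∀ (bad : Ideal (𝓞 K) → Prop) (Y : ℝ), 0 ≤ Y →
    (∀ S : Finset (Ideal (𝓞 K)), (∀ P ∈ S, P.IsMaximal ∧ P ≠ ⊥ ∧ (nb : 𝓞 K) ∉ P ∧ bad P) →
      ∑ P ∈ S, Real.log (Ideal.absNorm P) ≤ Y) →
    ∃ P : Ideal (𝓞 K), P.IsMaximal ∧ P ≠ ⊥ ∧ (nb : 𝓞 K) ∉ P ∧ ¬ bad P ∧
      (Ideal.absNorm P : ℝ) ≤ (C * (Y + 1)) ^ κ

/-- (PAR) choice of the parameter, uniform in the norm `N₀` of the prime -/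
def ParU : Prop :=
  ∀ (E : ℝ) (κ : ℕ), 0 ≤ E → 1 ≤ κ → ∃ j : ℕ, 1 ≤ j ∧ ∀ N₀ : ℕ, 2 ≤ N₀ →
    8 * j ^ 2 < N₀ ^ j ∧
    1 + E * (1 + Nat.log 2 (N₀ ^ j * (8 * j ^ 2)) : ℕ) + E * (1 + Nat.log 2 (8 * j ^ 2) : ℕ) +
      Real.log (((N₀ ^ j * (8 * j ^ 2) + 1) * (8 * j ^ 2 + 1) : ℕ)) <
      (j ^ 2 : ℕ) * (Real.log N₀ / κ) / 2

/-- (TRC) descent of relations by the trace -/
def TraceDesc : Prop :=
  ∀ (K : Type) [Field K] [NumberField K] (L : Type) [Field L] [NumberField L] [Algebra K L]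
    [IsGalois K L] (θ : Gal(L/K)), (∀ g : Gal(L/K), θ * g = g * θ) →
    ∀ (ι : Type) (x : ι → L) (G : L[X][X]) (A b : ℕ), G ≠ 0 → G.natDegree ≤ b → XD A G →
    (∀ (σ : Gal(L/K)) (i : ι), G.evalEval (σ (x i)) (θ (σ (x i))) = 0) →
    ∃ G' : K[X][X], G' ≠ 0 ∧ G'.natDegree ≤ b ∧ XD A G' ∧ ∀ i, ev (x i) (θ (x i)) G' = 0

/-- (RES) the resultant of an irreducible polynomial and a polynomial not divisible by it -/
def ResLem : Prop :=
  ∀ (K : Type) [Field K] (g Φ : K[X][X]) (A A' b b' : ℕ), Irreducible g → 1 ≤ g.natDegree →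
    g.natDegree ≤ b → XD A g → Φ.natDegree ≤ b' → XD A' Φ → ¬ g ∣ Φ →
    ∃ (c : K[X]) (U V : K[X][X]), c ≠ 0 ∧ c.natDegree ≤ A * b' + A' * b ∧
      C c = U * g + V * Φ

/-- (CHN) the orbit of pairs of points: a relation on a window gives an irreducible relation on an
arithmetic progression of indices -/
def Chain : Prop :=
  ∀ (K : Type) [Field K] (L : Type) [Field L] [Algebra K L] [FiniteDimensional K L]
    (D b A : ℕ), 1 ≤ D → ∀ (x y : ℕ → L) (J : Set ℕ),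
    (∀ i j, i ∉ J → j ∉ J → i = j) →
    (∀ j, 1 ≤ j → ∃ f g : K[X], f.natDegree ≤ D ^ j ∧ g.natDegree ≤ D ^ j ∧
      ∀ i ∈ J, i + j ∈ J → aeval (x i) g ≠ 0 ∧ aeval (y i) g ≠ 0 ∧
        x (i + j) = aeval (x i) f / aeval (x i) g ∧ y (i + j) = aeval (y i) f / aeval (y i) g) →
    (∀ i ≤ 3 * b, i ∈ J ∧ 2 * A * b * D ^ (2 * b) < (minpoly K (x i)).natDegree) →
    (∀ i ≤ 3 * b, A < (minpoly K (x i)).natDegree) →
    ∀ G : K[X][X], G ≠ 0 → G.natDegree ≤ b → XD A G →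
    (∀ i ≤ 3 * b, ev (x i) (y i) G = 0) →
    ∃ g : K[X][X], Irreducible g ∧ 1 ≤ g.natDegree ∧ g.natDegree ≤ b ∧ XD A g ∧
      ∃ i₀ k : ℕ, i₀ ≤ b ∧ 1 ≤ k ∧ ∀ n, i₀ + n * k ∈ J →
        ev (x (i₀ + n * k)) (y (i₀ + n * k)) g = 0

/-- (HGT) an irreducible relation between elements of equal large heights -/
def HgtLem : Prop :=
  ∀ (K : Type) [Field K] [NumberField K] (L : Type) [Field L] [NumberField L] [Algebra K L]
    (g : K[X][X]), Irreducible g → 1 ≤ g.natDegree →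
    (∀ B : ℝ, ∃ x y : L, ev x y g = 0 ∧ Height.logHeight₁ y = Height.logHeight₁ x ∧
      B < Height.logHeight₁ x) → XD g.natDegree g

/-- (LAST) there is no point of small height and large degree satisfying a relation of small
bidegree with its image under Frobenius -/
def LastStep : Prop :=
  ∀ (K : Type) [Field K] [NumberField K] (L : Type) [Field L] [NumberField L] [Algebra K L]
    [IsGalois K L]
    (F : Fin (1 + 1) → MvPolynomial (Fin (1 + 1)) K) (q c a : ℕ) (A : ℝ),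
    Bds F q A a → 2 ≤ q → (∀ i, (F i).IsHomogeneous q) →
    (∀ m, c + q ≤ m → ∀ p : MvPolynomial (Fin (1 + 1)) K, p.IsHomogeneous m →
      p ∈ Ideal.span (Set.range F)) →
    ∀ (T : Finset (FinitePlace L)) (θ : Gal(L/K)) (Q b : ℕ), (∀ v ∈ T, GR v F q) →
    (∀ g : Gal(L/K), θ * g = g * θ) → (∀ v ∈ T, FrobAt v θ Q) → b < Q →
    ∀ ω : ℝ, 0 < ω → (finrank ℚ L : ℝ) * ω ≤ ∑ v ∈ T, Real.log (nv v) →
    ∀ (g : K[X][X]), g ≠ 0 → g.natDegree ≤ b → XD b g →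
    ∀ x : L, ev x (θ x) g = 0 →
    32 * (b * (Q + 1) + 1 : ℕ) * canH F q ![x, 1] ≤ ω →
    8 * (b * (Q + 1) + 1) ≤ (minpoly K x).natDegree →
    hC A a * (c + q : ℕ) * (1 + Nat.log 2 (minpoly K x).natDegree : ℕ) +
      Real.log (minpoly K x).natDegree <
      ω / (32 * (b * (Q + 1) + 1 : ℕ)) * (minpoly K x).natDegree → False

/-- (IND) the numerical induction -/
def NumInd : Prop :=
  ∀ (R : ℕ → ℝ → Prop) (C₁ C₂ E : ℝ) (κ J q m : ℕ), 0 < C₁ → 0 < C₂ → 0 ≤ E → 1 ≤ κ → 1 ≤ J →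
    1 ≤ q →
    (∀ D h, R D h → 1 ≤ D ∧ 0 < h) →
    (∀ D₀ : ℕ, ∃ c : ℝ, 0 < c ∧ ∀ D h, D ≤ D₀ → R D h → c ≤ h) →
    (∀ D h, R D h → ∃ N : ℝ, 1 ≤ N ∧ N ≤ (C₂ * (D * h + Real.log D + 1)) ^ κ ∧
      (1 / (C₁ * N ^ J) ≤ h ∨ ∃ D' : ℕ, (D' : ℝ) ≤ C₁ * N ^ J ∧ R D' ((q : ℝ) ^ m * h))) →
    ∃ C δ : ℝ, 0 < C ∧ 0 < δ ∧ δ ≤ 1 ∧ ∀ D h, R D h → 1 / (C * (D : ℝ) ^ (1 - δ)) ≤ h

end

end Pool.Agent.N715.AB
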