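import Mathlib
import Pool.Agent.N715.AB.Stm
import Pool.Agent.W238.Leh.General
import Pool.Agent.R829.DL.Lev

/-!
Change of the base field; integral models with good reduction outside a finite set of primes.
-/

set_option autoImplicit false
set_option linter.unusedSectionVars false

namespace Pool.Agent.N715.AB

open NumberField Module MvPolynomial
open Pool.Agent.W238.Leh
open Pool.Agent.H627.LP (Wnd act_C_mul_iter)
open Pool.Agent.H627.LR (GR GoodK IC)

noncomputable section

section base

variable {K k L : Type} [Field K] [NumberField K] [Field k] [NumberField k] [Field L]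
  [NumberField L] [Algebra K k] [Algebra K L] [Algebra k L] [IsScalarTower K k L] {N : ℕ}

/-- base change of forms -/
def bch (k : Type) [Field k] [Algebra K k] (F : Fin (N + 1) → MvPolynomial (Fin (N + 1)) K) :
    Fin (N + 1) → MvPolynomial (Fin (N + 1)) k := fun i => map (algebraMap K k) (F i)

variable {F : Fin (N + 1) → MvPolynomial (Fin (N + 1)) K} {q a : ℕ} {A : ℝ}

lemma act_bch (z : Fin (N + 1) → L) : act (bch k F) z = act F z := by
  funext i
  simp only [act, bch]
  exact aeval_map_algebraMap k z (F i)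

lemma act_bch_iter (z : Fin (N + 1) → L) (n : ℕ) : (act (bch k F))^[n] z = (act F)^[n] z := by
  have : (act (bch k F) : (Fin (N + 1) → L) → (Fin (N + 1) → L)) = act F := by
    funext z
    exact act_bch z
  rw [this]

lemma canH_bch (z : Fin (N + 1) → L) : canH (bch k F) q z = canH F q z := by
  unfold canH
  simp only [act_bch_iter]

lemma Wnd_bch {z : Fin (N + 1) → L} (h : Wnd F z) : Wnd (bch k F) z := by
  unfold Wnd at h ⊢
  simpa only [act_bch_iter] using h

lemma hom_bch (hF : ∀ i, (F i).IsHomogeneous q) (i : Fin (N + 1)) :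
    (bch k F i).IsHomogeneous q := (hF i).map _

lemma Bds_bch (h : Bds F q A a) : Bds (bch k F) q A a where
  hA := h.hA
  ha := h.ha
  upC := fun σ y => by
    have h1 : actC σ (bch k F) y = actC (σ.comp (algebraMap K k)) F y := by
      funext i
      simp only [actC, bch]
      rw [eval₂_map]
    rw [h1]
    exact h.upC _ _
  loC := fun σ y => by
    have h1 : actC σ (bch k F) y = actC (σ.comp (algebraMap K k)) F y := by
      funext i
      simp only [actC, bch]
      rw [eval₂_map]
    rw [h1]
    exact h.loC _ _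
  upf := fun M _ _ _ v z => by
    let _ : Algebra K M := ((algebraMap k M).comp (algebraMap K k)).toAlgebra
    have : IsScalarTower K k M := IsScalarTower.of_algebraMap_eq fun _ => rfl
    rw [act_bch]
    exact h.upf M v z
  lof := fun M _ _ _ v z => by
    let _ : Algebra K M := ((algebraMap k M).comp (algebraMap K k)).toAlgebra
    have : IsScalarTower K k M := IsScalarTower.of_algebraMap_eq fun _ => rfl
    rw [act_bch]
    exact h.lof M v z

lemma span_bch {c : ℕ} (hc : ∀ m, c + q ≤ m → ∀ p : MvPolynomial (Fin (N + 1)) K,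
      p.IsHomogeneous m → p ∈ Ideal.span (Set.range F)) :
    ∀ m, c + q ≤ m → ∀ p : MvPolynomial (Fin (N + 1)) k, p.IsHomogeneous m →
      p ∈ Ideal.span (Set.range (bch k F)) := by
  intro m hm p hp
  rw [MvPolynomial.as_sum p]
  refine Ideal.sum_mem _ fun s hs => ?_
  have h1 : (monomial s (p.coeff s) : MvPolynomial (Fin (N + 1)) k) =
      C (p.coeff s) * map (algebraMap K k) (monomial s 1) := by
    rw [map_monomial, map_one, C_mul_monomial, mul_one]
  rw [h1]
  apply Ideal.mul_mem_left
  have h2 : (monomial s (1 : K) : MvPolynomial (Fin (N + 1)) K).IsHomogeneous m := by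
    apply isHomogeneous_monomial
    have h3 := hp (mem_support_iff.mp hs)
    rw [← h3, Finsupp.degree_eq_weight_one]
    rfl
  have h3 := Ideal.mem_map_of_mem (map (algebraMap K k)) (hc m hm _ h2)
  rw [Ideal.map_span, ← Set.range_comp] at h3
  exact h3

end base

/-- everything we need to know about the map -/
structure GD (K : Type) [Field K] [NumberField K] (F : Fin (1 + 1) → MvPolynomial (Fin (1 + 1)) K)
    (q c a nb : ℕ) (A : ℝ) (κ : ℕ) : Prop where
  hB : Bds F q A a
  hq : 2 ≤ q
  hF : ∀ i, (F i).IsHomogeneous q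
  hc : ∀ m, c + q ≤ m → ∀ p : MvPolynomial (Fin (1 + 1)) K, p.IsHomogeneous m →
      p ∈ Ideal.span (Set.range F)
  hnb : nb ≠ 0
  good : ∀ P : Ideal (𝓞 K), P.IsMaximal → P ≠ ⊥ → (nb : 𝓞 K) ∉ P → GoodK P F q
  deg : finrank ℚ K ≤ κ

lemma exists_ring_int {K : Type} [Field K] [NumberField K] {z : K} (h : IsIntegral ℤ z) :
    ∃ c : 𝓞 K, z = (c : K) := ⟨⟨z, h⟩, rfl⟩

lemma IC_bch {K k : Type} [Field K] [NumberField K] [Field k] [NumberField k] [Algebra K k]
    {N : ℕ} {p : MvPolynomial (Fin (N + 1)) K} (h : ∀ s, IsIntegral ℤ (p.coeff s)) :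
    IC (map (algebraMap K k) p) := by
  intro s
  rw [coeff_map]
  exact exists_ring_int (map_isIntegral_int (algebraMap K k) (h s))

/-- integral models -/
theorem exists_model (K : Type) [Field K] [NumberField K] (q : ℕ) (hq : 2 ≤ q)
    (F : Fin (1 + 1) → MvPolynomial (Fin (1 + 1)) K) (hF : ∀ i, (F i).IsHomogeneous q)
    (hmor : ∀ z : Fin (1 + 1) → AlgebraicClosure K, (∀ i, aeval z (F i) = 0) → z = 0)
    (B : ℕ) :
    ∃ (b : 𝓞 K) (c a nb : ℕ) (A : ℝ), b ≠ 0 ∧ ∀ (k : Type) [Field k] [NumberField k]
      [Algebra K k], finrank K k ≤ B →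
      GD k (bch k (fun i => C (b : K) * F i)) q c a nb A (finrank ℚ K * B) := by
  classical
  set T : Finset K := Finset.univ.biUnion fun i => (F i).support.image (F i).coeff with hT
  obtain ⟨b₀, hb₀, hbT⟩ := exists_denom T
  obtain ⟨b, hb⟩ : ∃ b : 𝓞 K, (b : K) = (b₀ : K) := ⟨(b₀ : 𝓞 K), by simp⟩
  have hb0 : b ≠ 0 := by
    rintro rfl
    have h1 : ((0 : 𝓞 K) : K) = 0 := rfl
    rw [h1] at hb
    have : (b₀ : K) ≠ 0 := by
      have : b₀ ≠ 0 := by omega
      exact_mod_cast this
    exact this hb.symm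
  have hbK : (b : K) ≠ 0 := RingOfIntegers.coe_ne_zero_iff.mpr hb0
  set H : Fin (1 + 1) → MvPolynomial (Fin (1 + 1)) K := fun i => C (b : K) * F i with hH
  have hhom : ∀ i, (H i).IsHomogeneous q := by
    intro i
    have h7 := (isHomogeneous_C (Fin (1 + 1)) (b : K)).mul (hF i)
    rwa [zero_add] at h7
  have hint : ∀ i s, IsIntegral ℤ ((H i).coeff s) := by
    intro i s
    simp only [hH, coeff_C_mul]
    by_cases hs : s ∈ (F i).support
    · rw [hb]
      apply hbT
      rw [hT]
      simp only [Finset.mem_biUnion, Finset.mem_image]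
      exact ⟨i, Finset.mem_univ _, s, hs, rfl⟩
    · rw [notMem_support_iff.mp hs, mul_zero]
      exact isIntegral_zero
  have hmor' : ∀ z : Fin (1 + 1) → AlgebraicClosure K, (∀ i, aeval z (H i) = 0) → z = 0 := by
    intro z hz
    apply hmor
    intro i
    have h1 := hz i
    simp only [hH, map_mul, aeval_C] at h1
    refine (mul_eq_zero.mp h1).resolve_left ?_
    exact (FaithfulSMul.algebraMap_eq_zero_iff K (AlgebraicClosure K)).not.mpr hbK
  obtain ⟨c, hc0⟩ := exists_mem_span hmor'
  have hc : ∀ m, c + q ≤ m → ∀ p : MvPolynomial (Fin (1 + 1)) K, p.IsHomogeneous m →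
      p ∈ Ideal.span (Set.range H) := fun m hm p hp => hc0 m (by omega) p hp
  obtain ⟨A, a, hB⟩ := exists_bds (by omega) hhom hint hc
  -- the identity for good reduction
  have h1 : ∀ i : Fin (1 + 1), ∃ u : Fin (1 + 1) → MvPolynomial (Fin (1 + 1)) K,
      (∀ j, (u j).IsHomogeneous (c + q - q)) ∧ X i ^ (c + q) = ∑ j, u j * H j := by
    intro i
    have h2 := isHomogeneous_X_pow (R := K) i (c + q)
    exact exists_bez hhom (m := c + q) (by omega) h2 (hc _ le_rfl _ h2)
  choose u hu huH using h1
  set T' : Finset K := Finset.univ.biUnion fun i => Finset.univ.biUnion fun j =>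
    (u i j).support.image (u i j).coeff with hT'
  obtain ⟨nb, hnb, hnbT⟩ := exists_denom T'
  have hnb0 : nb ≠ 0 := by omega
  have huint : ∀ i j s, IsIntegral ℤ ((C (nb : K) * u i j).coeff s) := by
    intro i j s
    rw [coeff_C_mul]
    by_cases hs : s ∈ (u i j).support
    · apply hnbT
      rw [hT']
      simp only [Finset.mem_biUnion, Finset.mem_image]
      exact ⟨i, Finset.mem_univ _, j, Finset.mem_univ _, s, hs, rfl⟩
    · rw [notMem_support_iff.mp hs, mul_zero]
      exact isIntegral_zero
  refine ⟨b, c, a, nb, A, hb0, fun k _ _ _ hk => ?_⟩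
  refine ⟨Bds_bch hB, hq, hom_bch hhom, span_bch hc, hnb0, ?_, ?_⟩
  · intro P hP hP0 hnbP
    refine ⟨hom_bch hhom, fun i => IC_bch (hint i), c + q, (nb : 𝓞 k),
      fun i j => map (algebraMap K k) (C (nb : K) * u i j), hnbP, fun i j => IC_bch (huint i j), ?_⟩
    intro i
    have h2 := congrArg (map (algebraMap K k)) (huH i)
    rw [map_pow, map_X, map_sum] at h2
    have h3 : (C ((nb : 𝓞 k) : k) : MvPolynomial (Fin (1 + 1)) k) =
        map (algebraMap K k) (C (nb : K)) := by
      rw [map_C, map_natCast]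
      simp
    rw [h3, h2, Finset.mul_sum]
    refine Finset.sum_congr rfl fun j _ => ?_
    simp only [bch, hH, map_mul]
    ring
  · rw [← finrank_mul_finrank ℚ K k]
    exact Nat.mul_le_mul_left _ hk

end

end Pool.Agent.N715.AB
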