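import Pool.Agent.N715.AB.Stm
import Pool.Agent.R829.BG.Win

/-!
Project AB, part CHN: a relation on a window of an orbit of pairs of points gives an irreducible
relation on an arithmetic progression of indices.
-/

set_option autoImplicit false
set_option linter.unusedSectionVars false

namespace Pool.Agent.N715.AB

open Polynomial
open Pool.Agent.R829.BG (XD subs natDegree_subs XD_subs eval_subs)

noncomputable section

namespace Chn

variable {K L : Type} [Field K] [Field L] [Algebra K L]

/-- evaluation as a ring homomorphism -/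
def evH (K : Type) {L : Type} [Field K] [Field L] [Algebra K L] (x y : L) : K[X][X] →+* L :=
  (evalEvalRingHom x y).comp (mapRingHom (mapRingHom (algebraMap K L)))

lemma ev_eq (x y : L) (G : K[X][X]) : ev x y G = evH K x y G := rfl

lemma ev_C (x y : L) (c : K[X]) : ev x y (C c : K[X][X]) = aeval x c := by
  unfold ev
  rw [Polynomial.map_C, evalEval_C, coe_mapRingHom, eval_map_algebraMap]

lemma map_subs (φ : K →+* L) (f h : K[X]) (A b : ℕ) (G : K[X][X]) :
    (subs f h A b G).map (mapRingHom φ) =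
      subs (f.map φ) (h.map φ) A b (G.map (mapRingHom φ)) := by
  unfold subs
  rw [Polynomial.map_sum]
  refine Finset.sum_congr rfl fun n _ => ?_
  have hC : ∀ f : K[X], ((f.map C : K[X][X])).map (mapRingHom φ) = (f.map φ).map C := by
    intro f
    rw [Polynomial.map_map, Polynomial.map_map, mapRingHom_comp_C]
  rw [Polynomial.map_mul, Polynomial.map_mul, Polynomial.map_pow, Polynomial.map_pow, hC, hC,
    Polynomial.map_C]
  congr 2
  rw [coe_mapRingHom, Polynomial.map_sum]
  refine Finset.sum_congr rfl fun m _ => ?_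
  rw [Polynomial.map_mul, Polynomial.map_mul, Polynomial.map_pow, Polynomial.map_pow,
    Polynomial.map_C, Polynomial.coeff_map, coe_mapRingHom, Polynomial.coeff_map]

lemma ev_subs {f h : K[X]} {A b : ℕ} {G : K[X][X]} (hb : G.natDegree ≤ b) (hA : XD A G)
    {x y : L} (hx : aeval x h ≠ 0) (hy : aeval y h ≠ 0) :
    ev x y (subs f h A b G) = (aeval x h) ^ A * (aeval y h) ^ b *
      ev (aeval x f / aeval x h) (aeval y f / aeval y h) G := by
  unfold ev
  rw [map_subs, eval_subs (natDegree_map_le.trans hb)]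
  · simp only [eval_map_algebraMap]
  · intro n
    rw [Polynomial.coeff_map, coe_mapRingHom]
    exact natDegree_map_le.trans (hA n)
  · rwa [eval_map_algebraMap]
  · rwa [eval_map_algebraMap]

lemma card_filter_le (t : Multiset K[X][X]) :
    (t.filter fun g => 1 ≤ g.natDegree).card ≤ (t.map natDegree).sum := by
  induction t using Multiset.induction_on with
  | empty => simp
  | cons a t ih =>
    rw [Multiset.map_cons, Multiset.sum_cons]
    by_cases h : 1 ≤ a.natDegree
    · rw [Multiset.filter_cons_of_pos (p := fun g : K[X][X] => 1 ≤ g.natDegree) t h,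
        Multiset.card_cons]
      omega
    · rw [Multiset.filter_cons_of_neg (p := fun g : K[X][X] => 1 ≤ g.natDegree) t h]
      omega

/-- a common irreducible factor at two indices -/
lemma pigeon {b A : ℕ} {x y : ℕ → L} [FiniteDimensional K L]
    (hmin : ∀ i ≤ b, A < (minpoly K (x i)).natDegree)
    {G : K[X][X]} (hG : G ≠ 0) (hb : G.natDegree ≤ b) (hA : XD A G)
    (h0 : ∀ i ≤ b, ev (x i) (y i) G = 0) :
    ∃ g : K[X][X], Irreducible g ∧ 1 ≤ g.natDegree ∧ g.natDegree ≤ b ∧ XD A g ∧
      ∃ i i' : ℕ, i < i' ∧ i' ≤ b ∧ ev (x i) (y i) g = 0 ∧ ev (x i') (y i') g = 0 := by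
  classical
  set t := UniqueFactorizationMonoid.factors G with ht
  have hirr : ∀ g ∈ t, Irreducible g := fun g hg =>
    UniqueFactorizationMonoid.irreducible_of_factor g hg
  have hass : Associated t.prod G := UniqueFactorizationMonoid.factors_prod hG
  have hdvd : ∀ g ∈ t, g ∣ G := fun g hg => (Multiset.dvd_prod hg).trans hass.dvd
  have hXD : ∀ g, g ∣ G → XD A g := by
    rintro g ⟨q, hq⟩
    have hg : g ≠ 0 := by
      rintro rfl
      exact hG (by rw [hq, zero_mul])
    have hq0 : q ≠ 0 := by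
      rintro rfl
      exact hG (by rw [hq, mul_zero])
    exact (XD.of_mul hg hq0 (hq ▸ hA)).1
  -- a factor for every index
  have hex : ∀ i ≤ b, ∃ g ∈ t.filter fun g => 1 ≤ g.natDegree, ev (x i) (y i) g = 0 := by
    intro i hi
    obtain ⟨u, hu⟩ := hass
    have h1 : evH K (x i) (y i) t.prod = 0 := by
      have h2 := h0 i hi
      rw [ev_eq, ← hu, map_mul, mul_eq_zero] at h2
      rcases h2 with h2 | h2
      · exact h2
      · exact absurd h2 (u.isUnit.map (evH K (x i) (y i))).ne_zero
    rw [map_multiset_prod, Multiset.prod_eq_zero_iff, Multiset.mem_map] at h1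
    obtain ⟨g, hg, hg0⟩ := h1
    refine ⟨g, Multiset.mem_filter.2 ⟨hg, ?_⟩, hg0⟩
    by_contra hlt
    obtain ⟨c, hc⟩ := natDegree_eq_zero.1 (show g.natDegree = 0 by omega)
    have hc0 : c ≠ 0 := by
      rintro rfl
      apply (hirr g hg).ne_zero
      rw [← hc, C_0]
    have hcA : c.natDegree ≤ A := by
      have := hXD g (hdvd g hg) 0
      rwa [← hc, coeff_C_zero] at this
    have h3 : aeval (x i) c = 0 := by
      rw [← ev_C (x i) (y i), hc]
      exact hg0
    have h4 := natDegree_le_natDegree (minpoly.degree_le_of_ne_zero K (x i) hc0 h3)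
    have h5 := hmin i hi
    omega
  choose! φ hφ1 hφ2 using hex
  set s : Finset K[X][X] := (t.filter fun g => 1 ≤ g.natDegree).toFinset with hs
  have hcard : s.card ≤ b := by
    have hne : (0 : K[X][X]) ∉ t := fun h => (hirr 0 h).ne_zero rfl
    calc s.card ≤ (t.filter fun g => 1 ≤ g.natDegree).card := Multiset.toFinset_card_le _
      _ ≤ (t.map natDegree).sum := card_filter_le t
      _ = t.prod.natDegree := (natDegree_multiset_prod t hne).symm
      _ ≤ G.natDegree := natDegree_le_of_dvd hass.dvd hG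
      _ ≤ b := hb
  obtain ⟨i, hi, j, hj, hij, he⟩ := Finset.exists_ne_map_eq_of_card_lt_of_maps_to
    (s := Finset.range (b + 1)) (t := s) (f := φ) (by rw [Finset.card_range]; omega) (by
      intro i hi
      rw [Finset.coe_range, Set.mem_Iio] at hi
      rw [Finset.mem_coe, hs, Multiset.mem_toFinset]
      exact hφ1 i (by omega))
  rw [Finset.mem_range] at hi hj
  have key : ∀ i j, i < j → j ≤ b → φ i = φ j → ∃ g : K[X][X], Irreducible g ∧ 1 ≤ g.natDegree ∧
      g.natDegree ≤ b ∧ XD A g ∧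
      ∃ i i' : ℕ, i < i' ∧ i' ≤ b ∧ ev (x i) (y i) g = 0 ∧ ev (x i') (y i') g = 0 := by
    intro i j hlt hjb he
    have hm := Multiset.mem_filter.1 (hφ1 i (by omega))
    refine ⟨φ i, hirr _ hm.1, hm.2, (natDegree_le_of_dvd (hdvd _ hm.1) hG).trans hb,
      hXD _ (hdvd _ hm.1), i, j, hlt, hjb, hφ2 i (by omega), ?_⟩
    rw [he]
    exact hφ2 j hjb
  rcases lt_or_gt_of_ne hij with h | h
  · exact key i j h (by omega) he
  · exact key j i h (by omega) he.symm

end Chn

open Chn in
theorem chain (hR : ResLem) : Chain := by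
  intro K _ L _ _ _ D b A hD x y J hmiss hstep hwin hmin G hG hb hA h0
  obtain ⟨g, hg, hg1, hgb, hgA, i, i', hii, hib, hv, hv'⟩ := pigeon (x := x) (y := y)
    (fun i hi => hmin i (by omega)) hG hb hA (fun i hi => h0 i (by omega))
  obtain ⟨k, rfl⟩ := Nat.exists_eq_add_of_lt hii
  -- the step as a statement on relations
  have hback : ∀ j (f h : K[X]), (∀ i ∈ J, i + j ∈ J → aeval (x i) h ≠ 0 ∧ aeval (y i) h ≠ 0 ∧
      x (i + j) = aeval (x i) f / aeval (x i) h ∧ y (i + j) = aeval (y i) f / aeval (y i) h) →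
      ∀ i ∈ J, i + j ∈ J → (ev (x i) (y i) (subs f h A b g) = 0 ↔
        ev (x (i + j)) (y (i + j)) g = 0) := by
    intro j f h hfh i hi hij
    obtain ⟨h1, h2, h3, h4⟩ := hfh i hi hij
    rw [ev_subs hgb hgA h1 h2, ← h3, ← h4, mul_eq_zero]
    constructor
    · rintro (h | h)
      · exact absurd h (mul_ne_zero (pow_ne_zero _ h1) (pow_ne_zero _ h2))
      · exact h
    · exact Or.inr
  -- divisibility
  have hdvd : ∀ j, 1 ≤ j → j ≤ 2 * b → ∀ f h : K[X], f.natDegree ≤ D ^ j → h.natDegree ≤ D ^ j →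
      (∀ i ∈ J, i + j ∈ J → aeval (x i) h ≠ 0 ∧ aeval (y i) h ≠ 0 ∧
      x (i + j) = aeval (x i) f / aeval (x i) h ∧ y (i + j) = aeval (y i) f / aeval (y i) h) →
      ∀ i, i + j ≤ 3 * b → ev (x i) (y i) g = 0 → ev (x (i + j)) (y (i + j)) g = 0 →
        g ∣ subs f h A b g := by
    intro j hj1 hj f h hf hh hfh i hij hv hv'
    by_contra hnd
    obtain ⟨c, U, V, hc, hcd, hcUV⟩ := hR K g (subs f h A b g) A (A * D ^ j) b (b * D ^ j) hg hg1
      hgb hgA (natDegree_subs hf hh A b g) (XD_subs hf hh A b g) hnd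
    have hi := hwin i (by omega)
    have e1 := (hback j f h hfh i hi.1 (hwin (i + j) hij).1).2 hv'
    have e2 : aeval (x i) c = 0 := by
      rw [← ev_C (x i) (y i), hcUV, ev_eq, map_add, map_mul, map_mul, ← ev_eq (x i) (y i) g,
        ← ev_eq (x i) (y i) (subs f h A b g), hv, e1, mul_zero, mul_zero, add_zero]
    have e3 := natDegree_le_natDegree (minpoly.degree_le_of_ne_zero K (x i) hc e2)
    have e4 : D ^ j ≤ D ^ (2 * b) := Nat.pow_le_pow_right hD hj
    have e5 : A * (b * D ^ j) + A * D ^ j * b = 2 * A * b * D ^ j := by ring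
    have e6 : 2 * A * b * D ^ j ≤ 2 * A * b * D ^ (2 * b) := Nat.mul_le_mul_left _ e4
    have := hi.2
    omega
  -- the two steps
  set κ := k + 1 with hκ
  have hik : i + k + 1 = i + κ := by omega
  rw [hik] at hv' hib
  obtain ⟨f₁, h₁, hf₁, hh₁, hs₁⟩ := hstep κ (by omega)
  obtain ⟨f₂, h₂, hf₂, hh₂, hs₂⟩ := hstep (2 * κ) (by omega)
  have hd₁ : g ∣ subs f₁ h₁ A b g := hdvd κ (by omega) (by omega) f₁ h₁ hf₁ hh₁ hs₁ i (by omega)
    hv hv'
  have hz : ∀ (Φ : K[X][X]) (i : ℕ), g ∣ Φ → ev (x i) (y i) g = 0 → ev (x i) (y i) Φ = 0 := by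
    rintro Φ i ⟨q, rfl⟩ h
    rw [ev_eq] at h ⊢
    rw [map_mul, h, zero_mul]
  have hv2 : ev (x (i + κ + κ)) (y (i + κ + κ)) g = 0 :=
    (hback κ f₁ h₁ hs₁ (i + κ) (hwin _ (by omega)).1 (hwin _ (by omega)).1).1
      (hz _ _ hd₁ hv')
  have hd₂ : g ∣ subs f₂ h₂ A b g := by
    refine hdvd (2 * κ) (by omega) (by omega) f₂ h₂ hf₂ hh₂ hs₂ i (by omega) hv ?_
    rw [show i + 2 * κ = i + κ + κ by ring]
    exact hv2
  refine ⟨g, hg, hg1, hgb, hgA, i, κ, by omega, by omega, ?_⟩
  intro n
  induction n using Nat.strong_induction_on with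
  | _ n ih =>
    intro hn
    rcases n with _ | _ | n
    · simpa using hv
    · simpa using hv'
    · have e2 : i + (n + 1 + 1) * κ = i + (n + 1) * κ + κ := by ring
      have e3 : i + (n + 1 + 1) * κ = i + n * κ + 2 * κ := by ring
      by_cases hm : i + (n + 1) * κ ∈ J
      · have h1 := ih (n + 1) (by omega) hm
        rw [e2] at hn ⊢
        exact (hback κ f₁ h₁ hs₁ _ hm hn).1 (hz _ _ hd₁ h1)
      · have hm' : i + n * κ ∈ J := by
          by_contra hcon
          have h1 := hmiss _ _ hm hcon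
          have h2 : (n + 1) * κ = n * κ + κ := by ring
          omega
        have h1 := ih n (by omega) hm'
        rw [e3] at hn ⊢
        exact (hback (2 * κ) f₂ h₂ hs₂ _ hm' hn).1 (hz _ _ hd₂ h1)

end

end Pool.Agent.N715.AB
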