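import Mathlib

/-!
Choice of the constants.
-/

set_option autoImplicit false

namespace Pool.Agent.N715.AB

noncomputable section

lemma log_bd {r : ℕ} (hr : 1 ≤ r) {E : ℝ} (hE : 0 ≤ E) :
    E * (1 + Nat.log 2 r : ℕ) + Real.log r ≤ (4 * E + 2) * Real.sqrt r := by
  have hr' : (1 : ℝ) ≤ r := by exact_mod_cast hr
  have hs1 : 1 ≤ Real.sqrt r := by
    rw [Real.one_le_sqrt]
    exact hr'
  have h1 : Real.log r ≤ 2 * Real.sqrt r := by
    have h2 : Real.log r = 2 * Real.log (Real.sqrt r) := by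
      rw [Real.log_sqrt (by linarith)]
      ring
    rw [h2]
    have := Real.log_le_sub_one_of_pos (show 0 < Real.sqrt r by linarith)
    linarith
  have h2 : (Nat.log 2 r : ℝ) ≤ 3 * Real.sqrt r := by
    have h3 : (Nat.log 2 r : ℝ) * Real.log 2 ≤ Real.log r := by
      have h4 : ((2 ^ Nat.log 2 r : ℕ) : ℝ) ≤ r := by
        exact_mod_cast Nat.pow_log_le_self 2 (by omega)
      have h5 := Real.log_le_log (by positivity) h4
      rwa [Nat.cast_pow, Real.log_pow] at h5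
    have h4 : (0.6931471803 : ℝ) < Real.log 2 := Real.log_two_gt_d9
    have h5 : (0 : ℝ) ≤ Nat.log 2 r := Nat.cast_nonneg _
    nlinarith
  push_cast
  nlinarith [mul_le_mul_of_nonneg_left h2 hE, mul_le_mul_of_nonneg_left hs1 hE]

lemma num_key {E : ℝ} (hE : 0 ≤ E) {κ j b q : ℕ} (hκ : 1 ≤ κ) (hj : 1 ≤ j) (hb : 1 ≤ b)
    (hq : 1 ≤ q) :
    ∃ C₁ : ℝ, 0 < C₁ ∧ ∀ N₀ : ℕ, 2 ≤ N₀ → ∀ Q, Q = N₀ ^ j →
      (∀ D : ℕ, C₁ * (N₀ : ℝ) ^ (2 * j) < D →
        2 ≤ D ∧ 2 * (Q * b) * b * q ^ (2 * b) < D ∧ Q * b < D ∧ 8 * (b * (Q + 1) + 1) ≤ D ∧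
        E * (1 + Nat.log 2 D : ℕ) + Real.log D <
          (Real.log N₀ / κ) / (32 * (b * (Q + 1) + 1 : ℕ)) * D) ∧
      (∀ h : ℝ, 0 ≤ h → h < 1 / (C₁ * (N₀ : ℝ) ^ (2 * j)) →
        32 * (b * (Q + 1) + 1 : ℕ) * ((q : ℝ) ^ (3 * b) * h) ≤ Real.log N₀ / κ ∧
        ((Q * b : ℕ) + (b : ℕ) : ℝ) * ((q : ℝ) ^ (3 * b) * h) ≤ 1) := by
  have hl2 : (0 : ℝ) < Real.log 2 := Real.log_pos (by norm_num)
  have hκ' : (1 : ℝ) ≤ κ := by exact_mod_cast hκ
  have hb' : (1 : ℝ) ≤ b := by exact_mod_cast hb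
  have hq' : (1 : ℝ) ≤ q := by exact_mod_cast hq
  have hq2 : (1 : ℝ) ≤ (q : ℝ) ^ (2 * b) := one_le_pow₀ hq'
  have hq3 : (1 : ℝ) ≤ (q : ℝ) ^ (3 * b) := one_le_pow₀ hq'
  obtain ⟨c₁, hc₁⟩ : ∃ c : ℝ, c = 2 * b * b * (q : ℝ) ^ (2 * b) := ⟨_, rfl⟩
  obtain ⟨c₄, hc₄⟩ : ∃ c : ℝ, c = 96 * b * (4 * E + 2) * κ / Real.log 2 := ⟨_, rfl⟩
  obtain ⟨c₅, hc₅⟩ : ∃ c : ℝ, c = 96 * b * (q : ℝ) ^ (3 * b) * κ / Real.log 2 := ⟨_, rfl⟩
  obtain ⟨c₆, hc₆⟩ : ∃ c : ℝ, c = 2 * b * (q : ℝ) ^ (3 * b) := ⟨_, rfl⟩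
  have h1 : 0 < c₁ := by rw [hc₁]; positivity
  have h4 : 0 < c₄ := by rw [hc₄]; positivity
  have h5 : 0 < c₅ := by rw [hc₅]; positivity
  have h6 : 0 < c₆ := by rw [hc₆]; positivity
  obtain ⟨C₁, hC₁⟩ : ∃ C : ℝ, C = c₁ + 24 * b + c₄ ^ 2 + c₅ + c₆ := ⟨_, rfl⟩
  have hC0 : 0 < C₁ := by
    rw [hC₁]
    positivity
  refine ⟨C₁, hC0, fun N₀ hN₀ Q hQ => ?_⟩
  have hN' : (2 : ℝ) ≤ N₀ := by exact_mod_cast hN₀
  have hQ2 : 2 ≤ Q := by
    rw [hQ]
    exact hN₀.trans (Nat.le_self_pow (by omega) N₀)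
  have hQ' : (2 : ℝ) ≤ Q := by exact_mod_cast hQ2
  have hNQ : (N₀ : ℝ) ^ (2 * j) = (Q : ℝ) ^ 2 := by
    rw [hQ, mul_comm 2 j, pow_mul]
    push_cast
    rfl
  rw [hNQ]
  have hlN : Real.log 2 ≤ Real.log N₀ := Real.log_le_log (by norm_num) hN'
  obtain ⟨t, ht⟩ : ∃ t, t = b * (Q + 1) + 1 := ⟨_, rfl⟩
  rw [← ht]
  have ht3 : t ≤ 3 * b * Q := by
    have e1 : b ≤ b * Q := Nat.le_mul_of_pos_right _ (by omega)
    have e2 : b * (Q + 1) = b * Q + b := by ring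
    have e3 : 3 * b * Q = b * Q + b * Q + b * Q := by ring
    omega
  have ht3' : (t : ℝ) ≤ 3 * b * Q := by exact_mod_cast ht3
  have ht1 : 1 ≤ t := by omega
  have ht0 : (0 : ℝ) < t := by exact_mod_cast ht1
  have hQQ : (Q : ℝ) ≤ (Q : ℝ) ^ 2 := by nlinarith
  constructor
  · intro D hD
    have hD1 : c₁ * (Q : ℝ) ^ 2 < D := by
      refine lt_of_le_of_lt ?_ hD
      apply mul_le_mul_of_nonneg_right _ (by positivity)
      rw [hC₁]
      have : 0 ≤ c₄ ^ 2 := by positivity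
      linarith
    have hD3 : 24 * b * (Q : ℝ) ^ 2 < D := by
      refine lt_of_le_of_lt ?_ hD
      apply mul_le_mul_of_nonneg_right _ (by positivity)
      rw [hC₁]
      have : 0 ≤ c₄ ^ 2 := by positivity
      linarith
    have hD4 : (c₄ * Q) ^ 2 < D := by
      rw [mul_pow]
      refine lt_of_le_of_lt ?_ hD
      apply mul_le_mul_of_nonneg_right _ (by positivity)
      rw [hC₁]
      linarith
    have hDb : 24 * (b : ℝ) * Q ≤ 24 * b * (Q : ℝ) ^ 2 := by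
      apply mul_le_mul_of_nonneg_left hQQ (by positivity)
    have hD3' : 24 * (b : ℝ) * Q < D := lt_of_le_of_lt hDb hD3
    have hD3n : 24 * b * Q < D := by exact_mod_cast hD3'
    have hbQ : 1 ≤ b * Q := Nat.mul_pos hb (by omega)
    have e24 : 24 * b * Q = 24 * (b * Q) := by ring
    refine ⟨by omega, ?_, ?_, ?_, ?_⟩
    · have e1 : ((2 * (Q * b) * b * q ^ (2 * b) : ℕ) : ℝ) ≤ c₁ * (Q : ℝ) ^ 2 := by
        rw [hc₁]
        push_cast
        have : 2 * ((Q : ℝ) * b) * b * (q : ℝ) ^ (2 * b) = 2 * b * b * (q : ℝ) ^ (2 * b) * Q := by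
          ring
        rw [this]
        exact mul_le_mul_of_nonneg_left hQQ (by positivity)
      have e2 : ((2 * (Q * b) * b * q ^ (2 * b) : ℕ) : ℝ) < D := lt_of_le_of_lt e1 hD1
      exact_mod_cast e2
    · have : Q * b = b * Q := mul_comm _ _
      omega
    · have : 3 * b * Q = 3 * (b * Q) := by ring
      omega
    · have hD1' : 1 ≤ D := by omega
      have hDpos : (0 : ℝ) < D := by exact_mod_cast hD1'
      refine lt_of_le_of_lt (log_bd hD1' hE) ?_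
      have hsq : c₄ * Q < Real.sqrt D := Real.lt_sqrt_of_sq_lt hD4
      have hs0 : 0 < Real.sqrt D := Real.sqrt_pos.mpr hDpos
      have hsD : Real.sqrt D * Real.sqrt D = D := Real.mul_self_sqrt hDpos.le
      rw [div_mul_eq_mul_div, lt_div_iff₀ (by positivity), div_mul_eq_mul_div,
        lt_div_iff₀ (by positivity)]
      have e1 : (4 * E + 2) * (32 * t) * κ ≤ c₄ * Q * Real.log 2 := by
        rw [hc₄]
        have : 96 * (b : ℝ) * (4 * E + 2) * κ / Real.log 2 * Q * Real.log 2 =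
            (4 * E + 2) * (32 * (3 * b * Q)) * κ := by
          field_simp
          ring
        rw [this]
        gcongr
      calc (4 * E + 2) * Real.sqrt D * (32 * t) * κ =
            ((4 * E + 2) * (32 * t) * κ) * Real.sqrt D := by ring
        _ ≤ (c₄ * Q * Real.log 2) * Real.sqrt D := mul_le_mul_of_nonneg_right e1 hs0.le
        _ < (Real.sqrt D * Real.log 2) * Real.sqrt D := by
            apply mul_lt_mul_of_pos_right _ hs0
            exact mul_lt_mul_of_pos_right hsq hl2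
        _ = Real.log 2 * D := by
            conv_rhs => rw [← hsD]
            ring
        _ ≤ Real.log N₀ * D := mul_le_mul_of_nonneg_right hlN hDpos.le
  · intro h hh0 hh
    have hQ20 : (0 : ℝ) < (Q : ℝ) ^ 2 := by positivity
    have hh' : h * (C₁ * (Q : ℝ) ^ 2) ≤ 1 := by
      rw [lt_div_iff₀ (by positivity)] at hh
      exact hh.le
    have hh5 : h * (c₅ * Q) ≤ 1 := by
      refine le_trans (mul_le_mul_of_nonneg_left ?_ hh0) hh'
      calc c₅ * Q ≤ C₁ * Q := by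
            apply mul_le_mul_of_nonneg_right _ (by positivity)
            rw [hC₁]
            have : 0 ≤ c₄ ^ 2 := by positivity
            linarith
        _ ≤ C₁ * (Q : ℝ) ^ 2 := mul_le_mul_of_nonneg_left hQQ hC0.le
    have hh6 : h * (c₆ * Q) ≤ 1 := by
      refine le_trans (mul_le_mul_of_nonneg_left ?_ hh0) hh'
      calc c₆ * Q ≤ C₁ * Q := by
            apply mul_le_mul_of_nonneg_right _ (by positivity)
            rw [hC₁]
            have : 0 ≤ c₄ ^ 2 := by positivity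
            linarith
        _ ≤ C₁ * (Q : ℝ) ^ 2 := mul_le_mul_of_nonneg_left hQQ hC0.le
    constructor
    · rw [le_div_iff₀ (by positivity)]
      calc 32 * (t : ℝ) * ((q : ℝ) ^ (3 * b) * h) * κ ≤
            32 * (3 * b * Q) * ((q : ℝ) ^ (3 * b) * h) * κ := by gcongr
        _ = h * (c₅ * Q) * Real.log 2 := by
            rw [hc₅]
            field_simp
            ring
        _ ≤ 1 * Real.log 2 := mul_le_mul_of_nonneg_right hh5 hl2.le
        _ ≤ Real.log N₀ := by linarith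
    · push_cast
      calc ((Q : ℝ) * b + b) * ((q : ℝ) ^ (3 * b) * h) ≤
            (Q * b + b * Q) * ((q : ℝ) ^ (3 * b) * h) := by
            apply mul_le_mul_of_nonneg_right _ (by positivity)
            nlinarith
        _ = h * (c₆ * Q) := by
            rw [hc₆]
            ring
        _ ≤ 1 := hh6

end

end Pool.Agent.N715.AB
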