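import Pool.Agent.N715.AB.Stm
import Pool.Agent.H627.LU.Iq

/-!
(DET) The one-variable interpolation inequality with parameters depending on the place.
-/

set_option autoImplicit false
set_option linter.unusedSectionVars false

namespace Pool.Agent.N715.AB

namespace DetAux

open NumberField Module MvPolynomial
open Pool.Agent.W238.Leh
open Pool.Agent.H627.LP hiding det_ineq det_ineq' local_gain
open Pool.Agent.H627.LR (GR local_gain)
open Pool.Agent.H627.LU (Classes)
open Pool.Agent.H420R3 (nv log_nv_pos)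

noncomputable section

variable {K : Type} [Field K] [NumberField K] {M : Type} [Field M] [NumberField M] [Algebra K M]
  {ι : Type} [Fintype ι] [DecidableEq ι]
variable {F : Fin (1 + 1) → MvPolynomial (Fin (1 + 1)) K} {q c a : ℕ} {A : ℝ}

/-- representatives of the classes -/
lemma rep {v : FinitePlace M} {p : ι → Fin (1 + 1) → M} {t : ℕ} {g : ℝ}
    (h : Classes v p ∅ t g) :
    ∃ cc : ι → ι, ((Finset.univ \ (∅ : Finset ι)).image cc).card ≤ t ∧
      ∀ i, i ∉ (∅ : Finset ι) → Near v (Real.exp (-g)) (p i) (p (cc i)) := by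
  classical
  obtain ⟨α, κ, S, hS, hκ, hnear⟩ := h
  rcases isEmpty_or_nonempty ι with hr | ⟨⟨k₀⟩⟩
  · refine ⟨id, ?_, fun i => (hr.false i).elim⟩
    have : (Finset.univ \ (∅ : Finset ι)).image id = ∅ := by
      rw [Finset.image_eq_empty]
      ext k
      exact (hr.false k).elim
    rw [this, Finset.card_empty]
    exact Nat.zero_le _
  · set rp : α → ι := fun b => if h : ∃ k', κ k' = b then h.choose else k₀ with hrp
    have hsp : ∀ k, κ (rp (κ k)) = κ k := by
      intro k
      have hex : ∃ k', κ k' = κ k := ⟨k, rfl⟩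
      simp only [hrp]
      rw [dif_pos hex]
      exact hex.choose_spec
    refine ⟨fun k => rp (κ k), ?_, fun i hi => ?_⟩
    · refine le_trans (Finset.card_le_card (t := S.image rp) ?_) (Finset.card_image_le.trans hS)
      intro b hb
      obtain ⟨k, -, rfl⟩ := Finset.mem_image.mp hb
      exact Finset.mem_image_of_mem _ (hκ k (Finset.notMem_empty k))
    · exact hnear i _ hi (Finset.notMem_empty _) (hsp i).symm

/-- **the inequality** -/
theorem det_ineq (hB : Bds F q A a) (hF : ∀ i, (F i).IsHomogeneous q)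
    (hc : ∀ m, c + q ≤ m → ∀ p : MvPolynomial (Fin (1 + 1)) K, p.IsHomogeneous m →
      p ∈ Ideal.span (Set.range F)) {p : ι → Fin (1 + 1) → M} (hp : ∀ i, p i ≠ 0)
    (hne : ∀ i j, i ≠ j → ∀ b : M, p i ≠ b • p j) (l : List ℕ) (hl : LOK c l)
    (hlc : Fintype.card ι ≤ ldeg q l + 1) (T : Finset (FinitePlace M))
    (hT : ∀ v ∈ T, GR v F q) (t s : FinitePlace M → ℕ)
    (hcl : ∀ v ∈ T, Classes v p ∅ (t v) (Real.log (nv v))) :
    ∑ v ∈ T, Real.log (nv v) * (s v * (Fintype.card ι - t v * s v : ℕ)) ≤
      ∑ i, HL F l (p i) + finrank ℚ M * Real.log (Fintype.card ι).factorial := by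
  obtain ⟨Φ, hΦ, hdet⟩ := exists_forms hF hc hp hne l hl hlc
  set W := (Matrix.of fun i j => aeval (p i) (Φ j)) with hW
  have hiter : ∀ i j, (act F)^[j] (p i) ≠ 0 := fun i j => hB.iter_ne_zero (hp i) j
  have hwtpos : ∀ (w : InfinitePlace M) i, 0 < wt (nmi w) (act F) l (p i) :=
    fun w i => wt_pos l fun j => nmi_pos w (hiter _ j)
  have hwtposf : ∀ (v : FinitePlace M) i, 0 < wt (nmf v) (act F) l (p i) :=
    fun v i => wt_pos l fun j => nmf_pos v (hiter _ j)
  have hinf : ∀ w : InfinitePlace M, Real.log (w W.det) ≤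
      ∑ i, Real.log (wt (nmi w) (act F) l (p i)) + Real.log (Fintype.card ι).factorial := by
    intro w
    have h1 : w W.det ≤ (Fintype.card ι).factorial * ∏ i, wt (nmi w) (act F) l (p i) := by
      apply det_rows_le_inf
      intro i j
      exact abs_le_wt (w.1.toMonoidWithZeroHom) (fun x => w.1.nonneg x)
        (fun x j => le_nmi w x j) (fun x => nmi_nonneg w x) l (hΦ j) (p i)
    have h2 : 0 < w W.det := InfinitePlace.pos_iff.mpr hdet
    have h3 := Real.log_le_log h2 h1
    have h4 : (0 : ℝ) < ((Fintype.card ι).factorial : ℝ) := by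
      exact_mod_cast Nat.factorial_pos _
    rw [Real.log_mul h4.ne' (Finset.prod_pos fun k _ => hwtpos w k).ne',
      Real.log_prod (fun k _ => (hwtpos w k).ne')] at h3
    linarith
  have hfin : ∀ v : FinitePlace M, Real.log (v W.det) ≤
      ∑ i, Real.log (wt (nmf v) (act F) l (p i)) := by
    intro v
    have h1 : v W.det ≤ ∏ i, wt (nmf v) (act F) l (p i) := by
      apply det_rows_le v _ _ (fun k => (hwtposf v k).le)
      intro i j
      exact abs_le_wt (v.1.toMonoidWithZeroHom) (fun x => v.1.nonneg x)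
        (fun x j => le_nmf v x j) (fun x => nmf_nonneg v x) l (hΦ j) (p i)
    have h2 : 0 < v W.det := FinitePlace.pos_iff.mpr hdet
    have h3 := Real.log_le_log h2 h1
    rwa [Real.log_prod (fun k _ => (hwtposf v k).ne')] at h3
  have hfinT : ∀ v ∈ T, Real.log (v W.det) ≤
      ∑ i, Real.log (wt (nmf v) (act F) l (p i)) -
        Real.log (nv v) * (s v * (Fintype.card ι - t v * s v : ℕ)) := by
    intro v hv
    have hR := hT v hv
    obtain ⟨cc, hcc, hcc'⟩ := rep (hcl v hv)
    have hgv := log_nv_pos v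
    have h1 := local_gain hR hF l Φ hΦ p hp ∅ cc (Real.exp_pos (-Real.log (nv v)))
      (by rw [Real.exp_lt_one_iff]; linarith) hcc' hcc (s v)
    rw [← hW, Finset.card_empty, zero_add, pow_one] at h1
    have h2 : 0 < v W.det := FinitePlace.pos_iff.mpr hdet
    have h3 := Real.log_le_log h2 h1
    have h4 : ∏ i, nmf v (p i) ^ ldeg q l = ∏ i, wt (nmf v) (act F) l (p i) :=
      Finset.prod_congr rfl fun i _ => (hR.wt_eq l (p i)).symm
    rw [h4, Real.log_mul (Finset.prod_pos fun i _ => hwtposf v i).ne'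
      (pow_pos (pow_pos (Real.exp_pos _) _) _).ne',
      Real.log_prod (fun k _ => (hwtposf v k).ne'), Real.log_pow, Real.log_pow, Real.log_exp]
      at h3
    refine h3.trans (le_of_eq ?_)
    ring
  have hgs1 : HasGS (fun w => ∑ i, Real.log (wt (nmi w) (act F) l (p i)))
      (fun v => ∑ i, Real.log (wt (nmf v) (act F) l (p i))) (∑ i, HL F l (p i)) :=
    HasGS.sum Finset.univ fun k _ => HasGS.wt l (hiter k)
  have hmain := HasGS_le_gain (HasGS.prod hdet) hgs1
    (c := Real.log (Fintype.card ι).factorial) hinf T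
    (fun v => Real.log (nv v) * (s v * (Fintype.card ι - t v * s v : ℕ)))
    (fun v _ => hfin v) hfinT
  linarith

end

end DetAux

open DetAux in
open NumberField Module Pool.Agent.W238.Leh Pool.Agent.H627.LP in
/-- the inequality in terms of canonical heights -/
theorem detVar : DetVar := by
  intro K _ _ M _ _ _ ι _ _ F q c a A hB hq hF hc p hp hne hι T hT t s hcl H hH
  set r := Fintype.card ι with hr
  obtain ⟨l, hl1, hl2, hl3, hl4⟩ := exists_list (c := c) hq r
  have h1 := DetAux.det_ineq hB hF hc hp hne l hl2 (by omega) T hT t s hcl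
  refine h1.trans ?_
  have hD := finrank_pos' (L := M)
  have hr' : (1 : ℝ) ≤ r := by exact_mod_cast hι
  have hHL : ∀ i, HL F l (p i) ≤ finrank ℚ M * (r * H +
      hC A a * ((c + q : ℕ) * (1 + Nat.log 2 r : ℕ))) := by
    intro i
    refine (hB.HL_le hq l (hp i)).trans ?_
    rw [hl1]
    have h2 : (l.sum : ℝ) ≤ (c + q : ℕ) * (1 + Nat.log 2 r : ℕ) := by
      have h3 : l.sum ≤ l.length * (c + q) := by
        have := List.sum_le_card_nsmul l (c + q) hl3
        simpa using this
      have h4 : l.length * (c + q) ≤ (c + q) * (1 + Nat.log 2 r) := by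
        rw [mul_comm]
        exact Nat.mul_le_mul_left _ hl4
      exact_mod_cast h3.trans h4
    have h3 : (r : ℝ) * canH F q (p i) ≤ r * H :=
      mul_le_mul_of_nonneg_left (hH i) (by linarith)
    have h4 : hC A a * l.sum ≤ hC A a * ((c + q : ℕ) * (1 + Nat.log 2 r : ℕ)) :=
      mul_le_mul_of_nonneg_left h2 hB.hC_nonneg
    exact mul_le_mul_of_nonneg_left (by linarith) hD.le
  have hsum : ∑ i, HL F l (p i) ≤ r * (finrank ℚ M * (r * H +
      hC A a * ((c + q : ℕ) * (1 + Nat.log 2 r : ℕ)))) := by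
    have h7 := Finset.sum_le_sum (fun k (_ : k ∈ (Finset.univ : Finset ι)) => hHL k)
    rwa [Finset.sum_const, Finset.card_univ, nsmul_eq_mul] at h7
  have hfac : Real.log r.factorial ≤ r * Real.log r := by
    have h2 : (r.factorial : ℝ) ≤ (r : ℝ) ^ r := by exact_mod_cast Nat.factorial_le_pow r
    have h3 := Real.log_le_log (by exact_mod_cast Nat.factorial_pos r) h2
    rwa [Real.log_pow] at h3
  have h5 := mul_le_mul_of_nonneg_left hfac hD.le
  calc ∑ i, HL F l (p i) + finrank ℚ M * Real.log r.factorial ≤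
      r * (finrank ℚ M * (r * H + hC A a * ((c + q : ℕ) * (1 + Nat.log 2 r : ℕ)))) +
        finrank ℚ M * (r * Real.log r) := by linarith
    _ = _ := by ring

end Pool.Agent.N715.AB
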