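import Mathlib
import Pool.Agent.N715.AB.Base

/-!
Orbits of points in affine coordinates, fields of definition.
-/

set_option autoImplicit false
set_option linter.unusedSectionVars false

namespace Pool.Agent.N715.AB

open NumberField Module
open Pool.Agent.W238.Leh
open Pool.Agent.H627.LP (Wnd FrobAt)
open Pool.Agent.R829.DL (fod fod_iter fod_smul exists_rep canH_hom act_map iter_map)
open Pool.Agent.R829.BG (ax JJ ax_vec dh dh_natDegree)

noncomputable section

section affine

variable {K L : Type} [Field K] [Field L] [Algebra K L]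

lemma fod_le_affine {z : Fin (1 + 1) → L} (h1 : z 1 ≠ 0) :
    fod K z = IntermediateField.adjoin K {z 0 / z 1} := by
  apply le_antisymm
  · unfold fod
    rw [IntermediateField.adjoin_le_iff]
    have hm : z 0 / z 1 ∈ IntermediateField.adjoin K {z 0 / z 1} :=
      IntermediateField.subset_adjoin K _ rfl
    rintro _ ⟨⟨i, j⟩, rfl⟩
    change z i / z j ∈ IntermediateField.adjoin K {z 0 / z 1}
    have hcase : ∀ i : Fin (1 + 1), i = 0 ∨ i = 1 := by
      intro i
      fin_cases i
      · exact Or.inl rfl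
      · exact Or.inr rfl
    rcases hcase i with rfl | rfl <;> rcases hcase j with rfl | rfl
    · by_cases h0 : z 0 = 0
      · rw [h0, div_zero]
        exact zero_mem _
      · rw [div_self h0]
        exact one_mem _
    · exact hm
    · have : z 1 / z 0 = (z 0 / z 1)⁻¹ := (inv_div _ _).symm
      rw [this]
      exact inv_mem hm
    · rw [div_self h1]
      exact one_mem _
  · rw [IntermediateField.adjoin_le_iff]
    rintro _ rfl
    exact IntermediateField.subset_adjoin K _ ⟨(0, 1), rfl⟩

lemma finrank_fod {z : Fin (1 + 1) → L} [FiniteDimensional K L] (h1 : z 1 ≠ 0) :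
    finrank K (fod K z) = (minpoly K (z 0 / z 1)).natDegree := by
  rw [fod_le_affine h1]
  exact IntermediateField.adjoin.finrank (Algebra.IsIntegral.isIntegral _)

lemma fod_inf {z : Fin (1 + 1) → L} (h1 : z 1 = 0) : finrank K (fod K z) = 1 := by
  have : fod K z = ⊥ := by
    rw [eq_bot_iff]
    unfold fod
    rw [IntermediateField.adjoin_le_iff]
    rintro _ ⟨⟨i, j⟩, rfl⟩
    change z i / z j ∈ (⊥ : IntermediateField K L)
    have hcase : ∀ i : Fin (1 + 1), i = 0 ∨ i = 1 := by
      intro i
      fin_cases i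
      · exact Or.inl rfl
      · exact Or.inr rfl
    rcases hcase i with rfl | rfl <;> rcases hcase j with rfl | rfl
    · by_cases h0 : z 0 = 0
      · rw [h0, div_zero]
        exact zero_mem _
      · rw [div_self h0]
        exact one_mem _
    · rw [h1, div_zero]
      exact zero_mem _
    · rw [h1, zero_div]
      exact zero_mem _
    · rw [h1, div_zero]
      exact zero_mem _
  rw [this]
  exact IntermediateField.finrank_bot

end affine

section iter

variable {K : Type} [Field K] [NumberField K]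

/-- forms of the iterates -/
lemma exists_iter {F : Fin (1 + 1) → MvPolynomial (Fin (1 + 1)) K} {q : ℕ}
    (hF : ∀ i, (F i).IsHomogeneous q) (j : ℕ) :
    ∃ H : Fin (1 + 1) → MvPolynomial (Fin (1 + 1)) K, (∀ i, (H i).IsHomogeneous (q ^ j)) ∧
      ∀ (L : Type) [Field L] [Algebra K L] (z : Fin (1 + 1) → L), act H z = (act F)^[j] z := by
  induction j with
  | zero =>
    refine ⟨fun i => MvPolynomial.X i, fun i => ?_, fun L _ _ z => ?_⟩
    · rw [pow_zero]
      exact MvPolynomial.isHomogeneous_X K i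
    · funext i
      simp [act]
  | succ j ih =>
    obtain ⟨H, hH, hact⟩ := ih
    refine ⟨fun i => MvPolynomial.bind₁ H (F i), fun i => ?_, fun L _ _ z => ?_⟩
    · have h1 := (hF i).aeval (R := K) H hH
      have h2 : q ^ j * q = q ^ (j + 1) := by ring
      rw [h2] at h1
      exact h1
    · rw [Function.iterate_succ_apply', ← hact L z]
      funext i
      simp only [act, MvPolynomial.aeval_bind₁]
      rfl

lemma aeval_dh {L : Type} [Field L] [Algebra K L] (φ : MvPolynomial (Fin (1 + 1)) K) (z : L) :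
    Polynomial.aeval z (dh 1 φ) = MvPolynomial.aeval ![z, 1] φ := by
  unfold dh
  rw [MvPolynomial.comp_aeval_apply]
  congr 2
  funext t
  fin_cases t <;> simp

variable {L : Type} [Field L] [NumberField L] [Algebra K L]
variable {F : Fin (1 + 1) → MvPolynomial (Fin (1 + 1)) K} {q : ℕ}

/-- the iterates as fractions -/
lemma exists_frac (hF : ∀ i, (F i).IsHomogeneous q) (x : Fin (1 + 1) → L) (θ : Gal(L/K)) (j : ℕ) :
    ∃ f g : Polynomial K, f.natDegree ≤ q ^ j ∧ g.natDegree ≤ q ^ j ∧
      ∀ i ∈ JJ F x, i + j ∈ JJ F x →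
        Polynomial.aeval (ax F x i) g ≠ 0 ∧ Polynomial.aeval (θ (ax F x i)) g ≠ 0 ∧
        ax F x (i + j) = Polynomial.aeval (ax F x i) f / Polynomial.aeval (ax F x i) g ∧
        θ (ax F x (i + j)) = Polynomial.aeval (θ (ax F x i)) f /
          Polynomial.aeval (θ (ax F x i)) g := by
  obtain ⟨H, hH, hact⟩ := exists_iter hF j
  refine ⟨dh 1 (H 0), dh 1 (H 1), dh_natDegree 1 (hH 0), dh_natDegree 1 (hH 1),
    fun i hi hij => ?_⟩
  have hi' : ((act F)^[i] x) 1 ≠ 0 := hi
  have hij' : ((act F)^[i + j] x) 1 ≠ 0 := hij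
  have hj : act H ((act F)^[i] x) = (act F)^[i + j] x := by
    rw [hact, ← Function.iterate_add_apply, Nat.add_comm j i]
  have h1 : ∀ t, MvPolynomial.aeval (![ax F x i, 1] : Fin (1 + 1) → L) (H t) =
      ((((act F)^[i] x) 1)⁻¹) ^ (q ^ j) * ((act F)^[i + j] x) t := by
    intro t
    rw [ax_vec hi]
    have h2 := congrFun (act_smul hH ((((act F)^[i] x) 1)⁻¹) ((act F)^[i] x)) t
    rw [hj] at h2
    exact h2
  have h3 : ∀ φ : Polynomial K, Polynomial.aeval (θ (ax F x i)) φ =
      θ (Polynomial.aeval (ax F x i) φ) := by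
    intro φ
    exact Polynomial.aeval_algHom_apply θ.toAlgHom (ax F x i) φ
  have hpow : ((((act F)^[i] x) 1)⁻¹) ^ (q ^ j) ≠ 0 := pow_ne_zero _ (inv_ne_zero hi')
  have hne : Polynomial.aeval (ax F x i) (dh 1 (H 1)) ≠ 0 := by
    rw [aeval_dh, h1]
    exact mul_ne_zero hpow hij'
  have hax : ax F x (i + j) = Polynomial.aeval (ax F x i) (dh 1 (H 0)) /
      Polynomial.aeval (ax F x i) (dh 1 (H 1)) := by
    rw [aeval_dh, aeval_dh, h1, h1, mul_div_mul_left _ _ hpow]
    rfl
  refine ⟨hne, ?_, hax, ?_⟩
  · rw [h3]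
    exact (map_ne_zero θ).mpr hne
  · rw [h3, h3, hax, map_div₀]

end iter

end

end Pool.Agent.N715.AB
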