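import Mathlib
import Pool.Agent.N715.AB.Orb
import Pool.Agent.N715.AB.Cst

/-!
The main step: a prime of small norm which is not ramified in the field of definition.
-/

set_option autoImplicit false
set_option linter.unusedSectionVars false

namespace Pool.Agent.N715.AB

open NumberField Module
open Pool.Agent.W238.Leh
open Pool.Agent.H627.LP (Wnd FrobAt)
open Pool.Agent.H627.LR (GR GoodK)
open Pool.Agent.H420R3 (mi nv TP ew sum_ew)
open Pool.Agent.R829.DL (fod fod_iter canH_hom)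
open Pool.Agent.R829.BG (ax JJ ax_vec XD exists_orb hgt_gal hgt_tendsto step_zero)

noncomputable section

lemma natlog_le_log {n : ℕ} (hn : 1 ≤ n) : (Nat.log 2 n : ℝ) ≤ 2 * Real.log n := by
  have h3 : (Nat.log 2 n : ℝ) * Real.log 2 ≤ Real.log n := by
    have h4 : ((2 ^ Nat.log 2 n : ℕ) : ℝ) ≤ n := by
      exact_mod_cast Nat.pow_log_le_self 2 (by omega)
    have h5 := Real.log_le_log (by positivity) h4
    rwa [Nat.cast_pow, Real.log_pow] at h5
  have h4 : (0.6931471803 : ℝ) < Real.log 2 := Real.log_two_gt_d9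
  have h5 : (0 : ℝ) ≤ Nat.log 2 n := Nat.cast_nonneg _
  nlinarith

variable {K : Type} [Field K] [NumberField K] {L : Type} [Field L] [NumberField L] [Algebra K L]

/-- the weights of the places over an unramified prime -/
lemma sum_log [IsGalois K L] {P : Ideal (𝓞 K)} [hP : P.IsMaximal] (hP0 : P ≠ ⊥)
    (hunr : ∃ w ∈ TP L P, (mi w).ramificationIdx (𝓞 K) < 2) :
    ∑ w ∈ TP L P, Real.log (nv w) = finrank K L * Real.log P.absNorm := by
  rw [← sum_ew (M := L) hP0]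
  refine Finset.sum_congr rfl fun w hw => ?_
  obtain ⟨w₀, hw₀, h2⟩ := hunr
  have hlo := H420R3.liesOver_of_mem hP0 hw
  have hlo₀ := H420R3.liesOver_of_mem hP0 hw₀
  have h3 : P.ramificationIdxIn (𝓞 L) = (mi w).ramificationIdx (𝓞 K) :=
    Ideal.ramificationIdxIn_eq_ramificationIdx P (mi w) Gal(L/K)
  have h4 : P.ramificationIdxIn (𝓞 L) = (mi w₀).ramificationIdx (𝓞 K) :=
    Ideal.ramificationIdxIn_eq_ramificationIdx P (mi w₀) Gal(L/K)
  have h5 := H420R3.ramIdx_pos (K := K) w₀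
  have h6 : (mi w).ramificationIdx (𝓞 K) = 1 := by omega
  unfold ew
  rw [h6, Nat.cast_one, one_mul]

/-- **the local part**: a small point of large degree does not exist -/
theorem local_part (hTD : TraceDesc) (hCH : Chain) (hHG : HgtLem) (hLS : LastStep)
    {F : Fin (1 + 1) → MvPolynomial (Fin (1 + 1)) K} {q c a : ℕ} {A : ℝ} (hB : Bds F q A a)
    (hq : 2 ≤ q) (hF : ∀ i, (F i).IsHomogeneous q)
    (hc : ∀ m, c + q ≤ m → ∀ p : MvPolynomial (Fin (1 + 1)) K, p.IsHomogeneous m →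
      p ∈ Ideal.span (Set.range F)) [IsGalois K L]
    (hcomm : ∀ σ τ : Gal(L/K), σ * τ = τ * σ)
    (T : Finset (FinitePlace L)) (hT : ∀ v ∈ T, GR v F q) {θ : Gal(L/K)} {Q S b : ℕ}
    (hb : b = 8 * S) (hbQ : b < Q)
    (hfr : ∀ v ∈ T, FrobAt v θ Q) {ω : ℝ} (hω0 : 0 < ω)
    (hω : (finrank ℚ L : ℝ) * ω ≤ ∑ v ∈ T, Real.log (nv v))
    (hs : 1 + hC A a * (c + q : ℕ) * (1 + Nat.log 2 (Q * (8 * S)) : ℕ) +
      hC A a * (c + q : ℕ) * (1 + Nat.log 2 (8 * S) : ℕ) +
        Real.log (((Q * (8 * S) + 1) * (8 * S + 1) : ℕ)) < S * ω / 2)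
    {x : Fin (1 + 1) → L} (hx : x ≠ 0) (hw : Wnd F x) (hpos : 0 < canH F q x)
    (hdeg : ∀ D : ℕ, finrank K (fod K ((act F)^[3 * b] x)) ≤ D →
        2 ≤ D ∧ 2 * (Q * b) * b * q ^ (2 * b) < D ∧ Q * b < D ∧ 8 * (b * (Q + 1) + 1) ≤ D ∧
        hC A a * (c + q : ℕ) * (1 + Nat.log 2 D : ℕ) + Real.log D <
          ω / (32 * (b * (Q + 1) + 1 : ℕ)) * D)
    (hh1 : 32 * (b * (Q + 1) + 1 : ℕ) * ((q : ℝ) ^ (3 * b) * canH F q x) ≤ ω)
    (hh2 : ((Q * b : ℕ) + (b : ℕ) : ℝ) * ((q : ℝ) ^ (3 * b) * canH F q x) ≤ 1) : False := by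
  classical
  have hfd : FiniteDimensional K L := Pool.Agent.R829.DL.fd_inter K L
  have hX : ∀ i, (act F)^[i] x ≠ 0 := fun i => hB.iter_ne_zero hx i
  have hq1 : (1 : ℝ) ≤ q := by exact_mod_cast (by omega : 1 ≤ q)
  -- degrees of the first iterates
  have hDi : ∀ i ≤ 3 * b, finrank K (fod K ((act F)^[3 * b] x)) ≤
      finrank K (fod K ((act F)^[i] x)) := by
    intro i hi
    have h1 : fod K ((act F)^[3 * b] x) ≤ fod K ((act F)^[i] x) := fod_iter hB hF hx hi
    exact LinearMap.finrank_le_finrank_of_injective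
      (f := (IntermediateField.inclusion h1).toLinearMap)
      (IntermediateField.inclusion_injective h1)
  have hJ : ∀ i ≤ 3 * b, i ∈ JJ F x := by
    intro i hi h0
    have h1 := (hdeg _ (hDi i hi)).1
    rw [fod_inf h0] at h1
    omega
  have hmin : ∀ i ≤ 3 * b, finrank K (fod K ((act F)^[i] x)) =
      (minpoly K (ax F x i)).natDegree := fun i hi => finrank_fod (hJ i hi)
  -- heights of the first iterates
  obtain ⟨H, hH⟩ : ∃ H : ℝ, H = (q : ℝ) ^ (3 * b) * canH F q x := ⟨_, rfl⟩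
  rw [← hH] at hh1 hh2
  have hH0 : 0 < H := by
    rw [hH]
    positivity
  have hcan : ∀ i ≤ 3 * b, canH F q ![ax F x i, 1] ≤ H := by
    intro i hi
    have hi' : ((act F)^[i] x) 1 ≠ 0 := hJ i hi
    rw [ax_vec (hJ i hi), canH_smul hF (inv_ne_zero hi'), hB.canH_iter hq hx, hH]
    apply mul_le_mul_of_nonneg_right _ hpos.le
    exact pow_le_pow_right₀ hq1 hi
  -- the relation over `L`
  obtain ⟨G, hG0, hG1, hG2, hG3⟩ := step_zero hB hq hF hc
    (ι := {i // i ∈ Finset.range (3 * b + 1)} × Gal(L/K)) T hT hfr hω hω0 (s := S)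
    (fun iσ => iσ.2 (ax F x iσ.1)) (H := H) (fun iσ => by
      have h1 : (iσ.1 : ℕ) ≤ 3 * b := by
        have := Finset.mem_range.mp iσ.1.2
        omega
      have h2 : (![iσ.2 (ax F x iσ.1), 1] : Fin (1 + 1) → L) =
          fun t => (iσ.2 : L →ₐ[K] L) ((![ax F x iσ.1, 1] : Fin (1 + 1) → L) t) := by
        funext t
        fin_cases t
        · rfl
        · exact (map_one iσ.2).symm
      rw [h2, canH_hom]
      exact hcan _ h1) (by rw [← hb]; exact hh2) hs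
  rw [← hb] at hG1 hG2
  -- the relation over `K`
  obtain ⟨G', hG'0, hG'1, hG'2, hG'3⟩ := hTD K L θ (fun g => hcomm θ g)
    {i // i ∈ Finset.range (3 * b + 1)} (fun i => ax F x i) G (Q * b) b hG0 hG1 hG2
    (fun σ i => hG3 (i, σ))
  have hO := exists_orb hB hq hF hx hw θ
  -- the irreducible relation
  obtain ⟨g, hgi, hg1, hgb, hgX, i₀, k, hi₀, hk, hgv⟩ := hCH K L q b (Q * b) (by omega) (ax F x)
    (fun i => θ (ax F x i)) (JJ F x) (fun i j hi hj => hO.miss i j hi hj)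
    (fun j _ => exists_frac hF x θ j)
    (fun i hi => ⟨hJ i hi, by
      rw [← hmin i hi]
      exact (hdeg _ (hDi i hi)).2.1⟩)
    (fun i hi => by
      rw [← hmin i hi]
      exact (hdeg _ (hDi i hi)).2.2.1) G' hG'0 hG'1 hG'2
    (fun i hi => hG'3 ⟨i, Finset.mem_range.mpr (by omega)⟩)
  -- heights
  have hXg : XD g.natDegree g := by
    refine hHG K L g hgi hg1 fun B => ?_
    obtain ⟨s, hs'⟩ := hgt_tendsto hB hq hx hpos B
    obtain ⟨n, hn, hns⟩ : ∃ n, i₀ + n * k ∈ JJ F x ∧ s ≤ i₀ + n * k := by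
      have hnk : ∀ n, n ≤ n * k := fun n => Nat.le_mul_of_pos_right _ hk
      by_cases h1 : i₀ + s * k ∈ JJ F x
      · exact ⟨s, h1, by have := hnk s; omega⟩
      · refine ⟨s + 1, ?_, by have := hnk (s + 1); omega⟩
        by_contra h2
        have h3 := hO.miss _ _ h1 h2
        have h4 : (s + 1) * k = s * k + k := by ring
        omega
    exact ⟨ax F x (i₀ + n * k), θ (ax F x (i₀ + n * k)), hgv n hn, hgt_gal θ _, hs' _ hn hns⟩
  have hi₀3 : i₀ ≤ 3 * b := by omega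
  -- the contradiction
  have hlast := hgv 0 (by rw [Nat.zero_mul, Nat.add_zero]; exact hJ i₀ hi₀3)
  rw [Nat.zero_mul, Nat.add_zero] at hlast
  have hd := hdeg _ (hDi i₀ hi₀3)
  rw [hmin i₀ hi₀3] at hd
  refine hLS K L F q c a A hB hq hF hc T θ Q b hT (fun g => hcomm θ g) hfr hbQ ω hω0 hω g
    hgi.ne_zero hgb (hXg.mono hgb) (ax F x i₀) hlast ?_ hd.2.2.2.1 hd.2.2.2.2
  refine le_trans ?_ hh1
  apply mul_le_mul_of_nonneg_left (hcan i₀ hi₀3)
  positivity

end

end Pool.Agent.N715.AB
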