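import Mathlib
import Pool.Agent.N715.AB.Key

/-!
The main dichotomy: either the height is not too small or the degree of an iterate is small.
-/

set_option autoImplicit false
set_option linter.unusedSectionVars false

namespace Pool.Agent.N715.AB

open NumberField Module
open Pool.Agent.W238.Leh
open Pool.Agent.H627.LP (Wnd FrobAt exists_common)
open Pool.Agent.H627.LR (GR GoodK)
open Pool.Agent.H420R3 (mi nv TP ew sum_ew)
open Pool.Agent.R829.DL (fod fod_iter canH_hom)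

noncomputable section

/-- **the dichotomy** -/
theorem key (hRS : RamSum) (hPS : PrimeSel) (hPU : ParU) (hTD : TraceDesc) (hCH : Chain)
    (hHG : HgtLem) (hLS : LastStep) (q c a nb : ℕ) (A : ℝ) (κ : ℕ) (hκ : 1 ≤ κ) (hnb : nb ≠ 0)
    (hq : 2 ≤ q) (hE : 0 ≤ hC A a) :
    ∃ (C₁ C₂ : ℝ) (J m : ℕ), 0 < C₁ ∧ 0 < C₂ ∧ 1 ≤ J ∧
      ∀ (K : Type) [Field K] [NumberField K] (L : Type) [Field L] [NumberField L] [Algebra K L]
        [IsGalois K L] (F : Fin (1 + 1) → MvPolynomial (Fin (1 + 1)) K),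
        GD K F q c a nb A κ → (∀ σ τ : Gal(L/K), σ * τ = τ * σ) →
        ∀ x : Fin (1 + 1) → L, x ≠ 0 →
        (∀ σ : Gal(L/K), σ ≠ 1 → ∀ b : L, (fun i => σ (x i)) ≠ b • x) →
        Wnd F x → 0 < canH F q x →
        ∃ N : ℝ, 1 ≤ N ∧
          N ≤ (C₂ * (finrank K L * canH F q x + Real.log (finrank K L) + 1)) ^ κ ∧
          (1 / (C₁ * N ^ J) ≤ canH F q x ∨
            (finrank K (fod K ((act F)^[m] x)) : ℝ) ≤ C₁ * N ^ J) := by
  classical
  obtain ⟨E, hEd⟩ : ∃ E : ℝ, E = hC A a * (c + q : ℕ) := ⟨_, rfl⟩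
  have hE0 : 0 ≤ E := by rw [hEd]; positivity
  obtain ⟨j, hj, hpar⟩ := hPU E κ hE0 hκ
  obtain ⟨b, hb⟩ : ∃ b, b = 8 * j ^ 2 := ⟨_, rfl⟩
  have hb1 : 1 ≤ b := by
    have : 1 ≤ j ^ 2 := Nat.one_le_pow _ _ hj
    omega
  obtain ⟨C₁, hC₁, hnum⟩ := num_key hE0 (κ := κ) (j := j) (b := b) (q := q) hκ hj hb1 (by omega)
  obtain ⟨C₃, hC₃, hsel⟩ := hPS κ nb hκ hnb
  have hκ' : (1 : ℝ) ≤ κ := by exact_mod_cast hκ
  refine ⟨C₁, C₃ * (8 * κ * (2 * E + 1) + 1), 2 * j, 3 * b, hC₁, by positivity, by omega, ?_⟩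
  intro K _ _ L _ _ _ _ F hG hcomm x hx hx1 hw hpos
  have hfd : FiniteDimensional K L := Pool.Agent.R829.DL.fd_inter K L
  obtain ⟨D, hD⟩ : ∃ D, D = finrank K L := ⟨_, rfl⟩
  have hD1 : 1 ≤ D := by
    rw [hD]
    exact finrank_pos
  have hD1' : (1 : ℝ) ≤ D := by exact_mod_cast hD1
  have hlogD : 0 ≤ Real.log D := Real.log_nonneg hD1'
  obtain ⟨h, hh⟩ : ∃ h, h = canH F q x := ⟨_, rfl⟩
  have hh0 : 0 < h := by rw [hh]; exact hpos
  obtain ⟨Y, hY⟩ : ∃ Y : ℝ, Y = 8 * finrank ℚ K * (finrank K L * canH F q x +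
        hC A a * ((c + q : ℕ) * (1 + Nat.log 2 (finrank K L) : ℕ)) +
        Real.log (finrank K L)) := ⟨_, rfl⟩
  rw [← hh, ← hD, ← mul_assoc (hC A a), ← hEd] at hY
  have hY0 : 0 ≤ Y := by
    rw [hY]
    positivity
  have hfin : (finrank ℚ K : ℝ) ≤ κ := by exact_mod_cast hG.deg
  have hY1 : Y + 1 ≤ (8 * κ * (2 * E + 1) + 1) * (D * h + Real.log D + 1) := by
    have e1 : E * (1 + Nat.log 2 D : ℕ) ≤ 2 * E * (Real.log D + 1) := by
      have e2 := natlog_le_log hD1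
      push_cast
      nlinarith [mul_le_mul_of_nonneg_left e2 hE0]
    have e3 : 0 ≤ (D : ℝ) * h := by positivity
    have e4 : D * h + E * (1 + Nat.log 2 D : ℕ) + Real.log D ≤
        (2 * E + 1) * (D * h + Real.log D + 1) := by
      nlinarith [mul_nonneg hE0 e3]
    have e5 : Y ≤ 8 * κ * ((2 * E + 1) * (D * h + Real.log D + 1)) := by
      rw [hY]
      apply mul_le_mul _ e4 (by positivity) (by positivity)
      linarith
    nlinarith
  obtain ⟨P, hP, hP0, hnbP, hbad, hN⟩ := hsel K hG.deg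
    (fun P => ∀ w ∈ TP L P, 2 ≤ (mi w).ramificationIdx (𝓞 K)) Y hY0 (by
      intro S hS
      have h1 := hRS K L F q c a A hG.hB hG.hq hG.hF hG.hc x hx hx1 S (fun P hP => by
        obtain ⟨h1, h2, h3, h4⟩ := hS P hP
        exact ⟨h1, h2, hG.good P h1 h2 h3, h4⟩)
      rw [← hh, ← hD, ← mul_assoc (hC A a), ← hEd, ← hY] at h1
      exact h1)
  simp only [not_forall, not_le] at hbad
  obtain ⟨w₀, hw₀, hw₀'⟩ := hbad
  obtain ⟨N₀, hN₀⟩ : ∃ N₀, N₀ = P.absNorm := ⟨_, rfl⟩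
  rw [← hN₀] at hN
  have hN2 : 2 ≤ N₀ := by
    have h0 : N₀ ≠ 0 := by
      rw [hN₀]
      exact fun h => hP0 (Ideal.absNorm_eq_zero_iff.mp h)
    have h1 : N₀ ≠ 1 := by
      rw [hN₀]
      exact fun h => hP.ne_top (Ideal.absNorm_eq_one_iff.mp h)
    omega
  have hN2' : (2 : ℝ) ≤ N₀ := by exact_mod_cast hN2
  refine ⟨N₀, by linarith, ?_, ?_⟩
  · refine hN.trans ?_
    rw [← hh, ← hD]
    apply pow_le_pow_left₀ (by positivity)
    rw [mul_assoc]
    exact mul_le_mul_of_nonneg_left hY1 hC₃.le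
  · by_contra! hcon
    obtain ⟨hc1, hc2⟩ := hcon
    obtain ⟨hnum1, hnum2⟩ := hnum N₀ hN2 (N₀ ^ j) rfl
    obtain ⟨hpar1, hpar2⟩ := hpar N₀ hN2
    obtain ⟨τ, -, hτ⟩ := exists_common (L := L) hP0 1 1 (fun σ g => by
      rw [pow_one]
      exact hcomm σ g)
    have hτ' : ∀ v ∈ TP L P, FrobAt v (τ ^ j) (N₀ ^ j) := by
      intro v hv
      have h1 := (hτ v hv).pow j
      rwa [pow_one, pow_one, ← hN₀] at h1
    have hlogN : 0 < Real.log N₀ := Real.log_pos (by linarith)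
    obtain ⟨hn2a, hn2b⟩ := hnum2 _ hpos.le hc1
    refine local_part (L := L) hTD hCH hHG hLS hG.hB hG.hq hG.hF hG.hc hcomm (TP L P)
      (fun v hv => (hG.good P hP hP0 hnbP).gr hP0 (by omega) hv) (θ := τ ^ j) (Q := N₀ ^ j)
      (S := j ^ 2) (b := b) hb (by rw [hb]; exact hpar1) hτ' (ω := Real.log N₀ / κ)
      (by positivity) ?_ ?_ hx hw hpos ?_ hn2a hn2b
    · rw [sum_log hP0 ⟨w₀, hw₀, hw₀'⟩, ← hN₀, ← finrank_mul_finrank ℚ K L, Nat.cast_mul]
      rw [mul_div_assoc', div_le_iff₀ (by positivity)]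
      calc (finrank ℚ K : ℝ) * finrank K L * Real.log N₀ =
            finrank K L * Real.log N₀ * finrank ℚ K := by ring
        _ ≤ finrank K L * Real.log N₀ * κ :=
            mul_le_mul_of_nonneg_left hfin (by positivity)
    · rw [← hEd]
      exact hpar2
    · intro D' hD'
      rw [← hEd]
      apply hnum1
      refine lt_of_lt_of_le hc2 ?_
      exact_mod_cast hD'

end

end Pool.Agent.N715.AB
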