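import Pool.Agent.N715.AB.Stm
import Pool.Agent.R829.BG.Num

/-!
Project AB: uniform choice of the parameter and the numerical induction (helper123).
-/

set_option autoImplicit false
set_option linter.unusedSectionVars false

namespace Pool.Agent.N715.AB

open Pool.Agent.R829.BG (natlog_le eight_sq_lt)

/-- (PAR) choice of the parameter, uniform in the norm of the prime -/
theorem parU : ParU := by
  intro C κ hC hκ
  have h2 : (0 : ℝ) < Real.log 2 := Real.log_pos (by norm_num)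
  have hκ1 : (1 : ℝ) ≤ κ := by exact_mod_cast hκ
  obtain ⟨U, hU⟩ : ∃ U : ℝ, U = 2 * κ * ((1 + 2 * C) / Real.log 2 + 3 * C / Real.log 2 + 3) :=
    ⟨_, rfl⟩
  obtain ⟨j, hj⟩ : ∃ j, j = max 10 (⌊U⌋₊ + 1) := ⟨_, rfl⟩
  have hj10 : 10 ≤ j := hj ▸ le_max_left _ _
  refine ⟨j, by omega, fun N₀ hN => ?_⟩
  have hN' : (2 : ℝ) ≤ N₀ := by exact_mod_cast hN
  obtain ⟨l, hldef⟩ : ∃ l, l = Real.log N₀ := ⟨_, rfl⟩
  have hl2 : Real.log 2 ≤ l := by
    rw [hldef]
    exact Real.log_le_log (by norm_num) hN'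
  have hl : 0 < l := h2.trans_le hl2
  obtain ⟨ω, hω'⟩ : ∃ ω : ℝ, ω = l / κ := ⟨_, rfl⟩
  have hω : 0 < ω := by
    rw [hω']
    positivity
  rw [← hldef, ← hω']
  obtain ⟨C', hC'⟩ : ∃ C', C' = 1 + 2 * C + 3 * C * l / Real.log 2 + 3 * l := ⟨_, rfl⟩
  have hC'0 : 0 < C' := by
    rw [hC']
    positivity
  have hUC : 2 * C' / ω ≤ U := by
    have h3 : 2 * C' / ω = 2 * κ * ((1 + 2 * C) / l + 3 * C / Real.log 2 + 3) := by
      rw [hC', hω']
      field_simp
    rw [h3, hU]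
    have h4 : (1 + 2 * C) / l ≤ (1 + 2 * C) / Real.log 2 :=
      div_le_div_of_nonneg_left (by positivity) h2 hl2
    apply mul_le_mul_of_nonneg_left _ (by positivity)
    linarith
  have hjC : 2 * C' / ω < j := by
    have h3 : U < ((⌊U⌋₊ + 1 : ℕ) : ℝ) := by
      push_cast
      exact Nat.lt_floor_add_one _
    refine (hUC.trans_lt h3).trans_le ?_
    rw [hj]
    exact_mod_cast le_max_right _ _
  have hjN : 8 * j ^ 2 < N₀ ^ j := (eight_sq_lt hj10).trans_le (Nat.pow_le_pow_left hN j)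
  refine ⟨hjN, ?_⟩
  have hj1 : (1 : ℝ) ≤ j := by
    have : 1 ≤ j := by omega
    exact_mod_cast this
  have hb0 : 8 * j ^ 2 ≠ 0 := by
    have : 0 < j ^ 2 := by positivity
    omega
  have hQ0 : N₀ ^ j ≠ 0 := by
    have : 0 < N₀ ^ j := Nat.pow_pos (by omega)
    omega
  obtain ⟨b, hb⟩ : ∃ b, b = 8 * j ^ 2 := ⟨_, rfl⟩
  obtain ⟨Q, hQ⟩ : ∃ Q, Q = N₀ ^ j := ⟨_, rfl⟩
  rw [← hb, ← hQ] at hjN
  rw [← hb] at hb0
  rw [← hQ] at hQ0
  rw [← hb, ← hQ]
  have hlogQ : Real.log Q = j * l := by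
    rw [hQ, Nat.cast_pow, Real.log_pow, hldef]
  have hQ1 : (1 : ℝ) ≤ Q := by
    have : 1 ≤ Q := by omega
    exact_mod_cast this
  have hbQ : (b : ℝ) ≤ Q := by exact_mod_cast hjN.le
  have hb1 : (1 : ℝ) ≤ b := by
    have : 1 ≤ b := by omega
    exact_mod_cast this
  have e1 : (Nat.log 2 b : ℝ) ≤ j * l / Real.log 2 := by
    refine (natlog_le hb0).trans ?_
    rw [← hlogQ]
    exact div_le_div_of_nonneg_right (Real.log_le_log (by linarith) hbQ) h2.le
  have e2 : (Nat.log 2 (Q * b) : ℝ) ≤ 2 * (j * l) / Real.log 2 := by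
    refine (natlog_le (Nat.mul_ne_zero hQ0 hb0)).trans ?_
    refine div_le_div_of_nonneg_right ?_ h2.le
    push_cast
    rw [Real.log_mul (by linarith) (by linarith), hlogQ]
    have := Real.log_le_log (by linarith) hbQ
    rw [hlogQ] at this
    linarith
  have e3 : Real.log (((Q * b + 1) * (b + 1) : ℕ)) ≤ 3 * (j * l) := by
    have h3 : (Q * b + 1) * (b + 1) ≤ Q * Q * Q := by
      have h4 : b + 1 ≤ Q := hjN
      have h5 : Q * b + 1 ≤ Q * Q := by
        have h6 : Q * (b + 1) ≤ Q * Q := Nat.mul_le_mul_left _ h4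
        have h7 : Q * (b + 1) = Q * b + Q := by ring
        omega
      exact Nat.mul_le_mul h5 h4
    have h4 : (((Q * b + 1) * (b + 1) : ℕ) : ℝ) ≤ (Q : ℝ) * Q * Q := by exact_mod_cast h3
    have h5 : (0 : ℝ) < (((Q * b + 1) * (b + 1) : ℕ) : ℝ) := by positivity
    refine (Real.log_le_log h5 h4).trans (le_of_eq ?_)
    have h6 : (Q : ℝ) ≠ 0 := by linarith
    rw [Real.log_mul (mul_ne_zero h6 h6) h6, Real.log_mul h6 h6, hlogQ]
    ring
  have e4 : 1 + C * (1 + Nat.log 2 (Q * b) : ℕ) + C * (1 + Nat.log 2 b : ℕ) +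
      Real.log (((Q * b + 1) * (b + 1) : ℕ)) ≤ j * C' := by
    push_cast at e3 ⊢
    have h3 := mul_le_mul_of_nonneg_left e1 hC
    have h4 := mul_le_mul_of_nonneg_left e2 hC
    have h5 : j * C' = j + 2 * C * j + (C * (j * l / Real.log 2) +
        C * (2 * (j * l) / Real.log 2)) + 3 * (j * l) := by
      rw [hC']
      ring
    rw [h5]
    nlinarith [mul_nonneg hC (sub_nonneg.mpr hj1)]
  refine lt_of_le_of_lt e4 ?_
  rw [div_lt_iff₀ hω] at hjC
  push_cast
  nlinarith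

/-- (IND) the numerical induction -/
theorem numInd : NumInd := by
  intro R C₁ C₂ E κ J q m hC₁ hC₂ hE hκ hJ hq h1 h2 h3
  have hκ1 : (1 : ℝ) ≤ κ := by exact_mod_cast hκ
  have hJ1 : (1 : ℝ) ≤ J := by exact_mod_cast hJ
  have hκJ : (1 : ℝ) ≤ κ * J := by nlinarith
  obtain ⟨δ, hδ⟩ : ∃ δ : ℝ, δ = 1 / (4 * (κ * J)) := ⟨_, rfl⟩
  have hδ0 : 0 < δ := by
    rw [hδ]
    positivity
  have hδ1 : δ ≤ 1 / 4 := by
    rw [hδ]
    exact div_le_div_of_nonneg_left (by norm_num) (by norm_num) (by linarith)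
  have hδκ : δ * (κ * J) = 1 / 4 := by
    rw [hδ]
    field_simp
  obtain ⟨C₆, hC₆⟩ : ∃ C₆ : ℝ, C₆ = (C₂ * (2 + 1 / δ)) ^ (κ * J) := ⟨_, rfl⟩
  have hC₆0 : 0 < C₆ := by
    rw [hC₆]
    positivity
  obtain ⟨C₇, hC₇⟩ : ∃ C₇ : ℝ, C₇ = C₁ * C₆ := ⟨_, rfl⟩
  have hC₇0 : 0 < C₇ := by
    rw [hC₇]
    positivity
  obtain ⟨D₀, hD₀⟩ : ∃ D₀ : ℕ, D₀ = max 2 (max (⌈C₇ ^ 4⌉₊) (q ^ (3 * m))) := ⟨_, rfl⟩
  have hD₀2 : 2 ≤ D₀ := by rw [hD₀]; exact le_max_left _ _
  have hD₀C : C₇ ^ 4 ≤ D₀ := by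
    refine (Nat.le_ceil _).trans ?_
    rw [hD₀]
    exact_mod_cast (le_max_left _ _).trans (le_max_right _ _)
  have hD₀q : ((q : ℝ) ^ m) ^ 3 ≤ D₀ := by
    rw [← pow_mul, mul_comm m 3, hD₀]
    exact_mod_cast (le_max_right _ _).trans (le_max_right _ _)
  obtain ⟨c, hc0, hc⟩ := h2 D₀
  obtain ⟨C, hC⟩ : ∃ C : ℝ, C = max 1 (max C₇ (1 / c)) := ⟨_, rfl⟩
  have hC1 : 1 ≤ C := by rw [hC]; exact le_max_left _ _
  have hCC₇ : C₇ ≤ C := by rw [hC]; exact (le_max_left _ _).trans (le_max_right _ _)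
  have hCc : 1 / c ≤ C := by rw [hC]; exact (le_max_right _ _).trans (le_max_right _ _)
  refine ⟨C, δ, by linarith, hδ0, by linarith, ?_⟩
  intro D
  induction D using Nat.strong_induction_on with
  | _ D ih =>
    intro h hR
    obtain ⟨hD1, hh0⟩ := h1 D h hR
    obtain ⟨X, hX⟩ : ∃ X : ℝ, X = D := ⟨_, rfl⟩
    have hX1 : 1 ≤ X := by
      rw [hX]
      exact_mod_cast hD1
    have hX0 : 0 < X := by linarith
    rw [← hX]
    by_contra hcon
    push Not at hcon
    have hp1 : 1 ≤ X ^ (1 - δ) := Real.one_le_rpow hX1 (by linarith)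
    have hp2 : 1 ≤ X ^ δ := Real.one_le_rpow hX1 hδ0.le
    have hpp : X ^ (1 - δ) * X ^ δ = X := by
      rw [← Real.rpow_add hX0, sub_add_cancel, Real.rpow_one]
    have hXh : X * h ≤ X ^ δ := by
      rw [lt_div_iff₀ (by positivity)] at hcon
      have e1 : X ^ (1 - δ) * h ≤ 1 := by
        have : 1 * (X ^ (1 - δ) * h) ≤ C * (X ^ (1 - δ) * h) :=
          mul_le_mul_of_nonneg_right hC1 (by positivity)
        nlinarith
      calc X * h = (X ^ (1 - δ) * h) * X ^ δ := by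
            nth_rewrite 1 [← hpp]
            ring
        _ ≤ 1 * X ^ δ := mul_le_mul_of_nonneg_right e1 (by positivity)
        _ = X ^ δ := one_mul _
    have hlog : Real.log X ≤ X ^ δ / δ := Real.log_le_rpow_div hX0.le hδ0
    have hlog0 : 0 ≤ Real.log X := Real.log_nonneg hX1
    have hsum : X * h + Real.log X + 1 ≤ (2 + 1 / δ) * X ^ δ := by
      have : (2 + 1 / δ) * X ^ δ = X ^ δ + X ^ δ / δ + X ^ δ := by ring
      rw [this]
      linarith
    obtain ⟨N, hN1, hN, hcase⟩ := h3 D h hR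
    rw [← hX] at hN
    have hNJ : N ^ J ≤ C₆ * X ^ (1 / 4 : ℝ) := by
      have e1 : N ≤ (C₂ * ((2 + 1 / δ) * X ^ δ)) ^ κ := by
        refine hN.trans (pow_le_pow_left₀ (by positivity) ?_ _)
        exact mul_le_mul_of_nonneg_left hsum hC₂.le
      calc N ^ J ≤ ((C₂ * ((2 + 1 / δ) * X ^ δ)) ^ κ) ^ J := pow_le_pow_left₀ (by linarith) e1 _
        _ = (C₂ * (2 + 1 / δ)) ^ (κ * J) * (X ^ δ) ^ (κ * J) := by
            rw [← pow_mul, ← mul_pow]
            ring
        _ = C₆ * X ^ (1 / 4 : ℝ) := by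
            rw [← hC₆, ← Real.rpow_natCast (X ^ δ), ← Real.rpow_mul hX0.le]
            congr 2
            push_cast
            exact hδκ
    have hq4 : 0 < X ^ (1 / 4 : ℝ) := by positivity
    have hCN : C₁ * N ^ J ≤ C₇ * X ^ (1 / 4 : ℝ) := by
      rw [hC₇, mul_assoc]
      exact mul_le_mul_of_nonneg_left hNJ hC₁.le
    have hN0 : 0 < N ^ J := by
      have : 0 < N := by linarith
      positivity
    rcases hcase with hcase | ⟨D', hD', hR'⟩
    · have e1 : 1 / (C * X ^ (1 - δ)) ≤ 1 / (C₁ * N ^ J) := by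
        apply div_le_div_of_nonneg_left (by norm_num) (by positivity)
        refine hCN.trans (mul_le_mul hCC₇ ?_ (by positivity) (by linarith))
        exact Real.rpow_le_rpow_of_exponent_le hX1 (by linarith)
      linarith
    · rcases le_or_gt D D₀ with hDD | hDD
      · have e1 := hc D h hDD hR
        have e2 : 1 / (C * X ^ (1 - δ)) ≤ c := by
          rw [div_le_iff₀ (by positivity)]
          rw [div_le_iff₀ hc0] at hCc
          have : C * c * 1 ≤ C * c * X ^ (1 - δ) :=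
            mul_le_mul_of_nonneg_left hp1 (by positivity)
          nlinarith
        linarith
      · have hDX : (D₀ : ℝ) < X := by
          rw [hX]
          exact_mod_cast hDD
        have hC₇X : C₇ ≤ X ^ (1 / 4 : ℝ) := by
          have e1 : (C₇ ^ 4) ^ (1 / 4 : ℝ) ≤ X ^ (1 / 4 : ℝ) :=
            Real.rpow_le_rpow (by positivity) (by linarith) (by norm_num)
          have e2 : (C₇ ^ 4) ^ (1 / 4 : ℝ) = C₇ := by
            rw [← Real.rpow_natCast C₇ 4, ← Real.rpow_mul hC₇0.le]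
            norm_num
          rwa [e2] at e1
        have hhalf : X ^ (1 / 4 : ℝ) * X ^ (1 / 4 : ℝ) = X ^ (1 / 2 : ℝ) := by
          rw [← Real.rpow_add hX0]
          norm_num
        have hD'X : (D' : ℝ) ≤ X ^ (1 / 2 : ℝ) := by
          refine (hD'.trans hCN).trans ?_
          rw [← hhalf]
          exact mul_le_mul_of_nonneg_right hC₇X hq4.le
        have hXlt : X ^ (1 / 2 : ℝ) < X := by
          have hX1' : 1 < X := by
            have : (2 : ℝ) ≤ D₀ := by exact_mod_cast hD₀2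
            linarith
          calc X ^ (1 / 2 : ℝ) < X ^ (1 : ℝ) :=
                Real.rpow_lt_rpow_of_exponent_lt hX1' (by norm_num)
            _ = X := Real.rpow_one X
        have hD'D : D' < D := by
          have : (D' : ℝ) < D := by
            rw [← hX]
            linarith
          exact_mod_cast this
        have e1 := ih D' hD'D _ hR'
        obtain ⟨hD'1, -⟩ := h1 D' _ hR'
        have hD'1' : (1 : ℝ) ≤ D' := by exact_mod_cast hD'1
        have e2 : (D' : ℝ) ^ (1 - δ) ≤ X ^ ((1 - δ) / 2) := by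
          calc (D' : ℝ) ^ (1 - δ) ≤ (X ^ (1 / 2 : ℝ)) ^ (1 - δ) :=
                Real.rpow_le_rpow (by linarith) hD'X (by linarith)
            _ = X ^ ((1 - δ) / 2) := by
                rw [← Real.rpow_mul hX0.le]
                congr 1
                ring
        have hqm0 : 0 < (q : ℝ) ^ m := by
          have : 0 < (q : ℝ) := by exact_mod_cast (by omega : 0 < q)
          positivity
        have hqm : (q : ℝ) ^ m ≤ X ^ ((1 - δ) / 2) := by
          have e3 : (((q : ℝ) ^ m) ^ 3) ^ (1 / 3 : ℝ) ≤ X ^ (1 / 3 : ℝ) :=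
            Real.rpow_le_rpow (by positivity) (by linarith) (by norm_num)
          have e4 : (((q : ℝ) ^ m) ^ 3) ^ (1 / 3 : ℝ) = (q : ℝ) ^ m := by
            rw [← Real.rpow_natCast ((q : ℝ) ^ m) 3, ← Real.rpow_mul hqm0.le]
            norm_num
          rw [e4] at e3
          refine e3.trans (Real.rpow_le_rpow_of_exponent_le hX1 ?_)
          linarith
        have hss : X ^ ((1 - δ) / 2) * X ^ ((1 - δ) / 2) = X ^ (1 - δ) := by
          rw [← Real.rpow_add hX0]
          congr 1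
          ring
        have e5 : 1 ≤ (q : ℝ) ^ m * h * (C * X ^ ((1 - δ) / 2)) := by
          have h5 : 0 < C * (D' : ℝ) ^ (1 - δ) := by positivity
          rw [div_le_iff₀ h5] at e1
          refine e1.trans ?_
          apply mul_le_mul_of_nonneg_left _ (by positivity)
          exact mul_le_mul_of_nonneg_left e2 (by linarith)
        have e6 : 1 ≤ h * (C * X ^ (1 - δ)) := by
          have h6 : 0 ≤ h * (C * X ^ ((1 - δ) / 2)) := by positivity
          have h7 := mul_le_mul_of_nonneg_right hqm h6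
          calc (1 : ℝ) ≤ (q : ℝ) ^ m * h * (C * X ^ ((1 - δ) / 2)) := e5
            _ = (q : ℝ) ^ m * (h * (C * X ^ ((1 - δ) / 2))) := by ring
            _ ≤ X ^ ((1 - δ) / 2) * (h * (C * X ^ ((1 - δ) / 2))) := h7
            _ = h * (C * (X ^ ((1 - δ) / 2) * X ^ ((1 - δ) / 2))) := by ring
            _ = h * (C * X ^ (1 - δ)) := by rw [hss]
        rw [lt_div_iff₀ (by positivity)] at hcon
        linarith

end Pool.Agent.N715.AB
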