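import Mathlib
import Pool.Agent.N715.AB.Stm

/-!
Project AB: primes of good reduction which ramify in the field of definition of a small point.
-/

set_option autoImplicit false
set_option linter.unusedSectionVars false

namespace Pool.Agent.N715.AB

open NumberField Module
open Pool.Agent.W238.Leh
open Pool.Agent.H627.LP (FrobAt v_le_inv_nv Near exists_nmf v_sub_le)
open Pool.Agent.H627.LR (GR GoodK)
open Pool.Agent.H627.LU (Classes)
open Pool.Agent.H420R3 (mi nv TP ew mem_TP liesOver_of_mem sum_ew card_inertia log_nv_pos)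
open scoped Pointwise

namespace Ram

section Loc

variable {K : Type} [Field K] [NumberField K] {L : Type} [Field L] [NumberField L] [Algebra K L]
  [IsGalois K L] {v : FinitePlace L}

/-- inertia elements act trivially on residues -/
lemma inertia_lt {τ : Gal(L/K)} (hτ : τ ∈ (mi v).inertia Gal(L/K)) {x : L} (hx : v x ≤ 1) :
    v (τ x - x) < 1 := by
  have h1 : FrobAt v τ 1 := ⟨H420R3.inertia_smul v hτ, fun x => by
    rw [pow_one]
    exact AddSubgroup.mem_inertia.mp hτ x⟩
  have h2 := h1.lt hx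
  rwa [pow_one] at h2

lemma inertia_v {τ : Gal(L/K)} (hτ : τ ∈ (mi v).inertia Gal(L/K)) (x : L) : v (τ x) = v x :=
  H420R3.v_smul v (H420R3.inertia_smul v hτ) x

/-- a point and its image under an inertia element are near -/
lemma near_inertia {τ : Gal(L/K)} (hτ : τ ∈ (mi v).inertia Gal(L/K)) {z : Fin (1 + 1) → L}
    (hz : z ≠ 0) : Near v (Real.exp (-Real.log (nv v))) (fun i => τ (z i)) z := by
  obtain ⟨i₀, hi₀⟩ := exists_nmf (v := v) z
  have hpos := nmf_pos v hz
  have hz0 : z i₀ ≠ 0 := by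
    intro h0
    rw [h0, map_zero] at hi₀
    linarith
  have hτz0 : τ (z i₀) ≠ 0 := (map_ne_zero τ).mpr hz0
  have hnm : nmf v (fun i => τ (z i)) = nmf v z := by
    unfold nmf
    congr 1
    funext i
    exact inertia_v hτ (z i)
  have hle : ∀ i, v (z i / z i₀) ≤ 1 := by
    intro i
    rw [map_div₀, hi₀, div_le_one hpos]
    exact le_nmf v z i
  have hsm : ∀ i, v (τ (z i / z i₀) - z i / z i₀) ≤ Real.exp (-Real.log (nv v)) := fun i =>
    v_le_inv_nv (inertia_lt hτ (hle i))
  intro s t
  have h1 : τ (z s) * z t - τ (z t) * z s = (z i₀ * τ (z i₀)) *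
      ((τ (z s / z i₀) - z s / z i₀) * (z t / z i₀) -
        (τ (z t / z i₀) - z t / z i₀) * (z s / z i₀)) := by
    rw [map_div₀, map_div₀]
    field_simp
    ring
  show v (τ (z s) * z t - τ (z t) * z s) ≤ _
  rw [h1, hnm, map_mul, map_mul, hi₀, inertia_v hτ, hi₀, mul_comm]
  refine mul_le_mul_of_nonneg_right ?_ (by positivity)
  refine (v_sub_le v _ _).trans (max_le ?_ ?_)
  · rw [map_mul]
    calc v (τ (z s / z i₀) - z s / z i₀) * v (z t / z i₀)
        ≤ Real.exp (-Real.log (nv v)) * 1 :=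
          mul_le_mul (hsm s) (hle t) (by positivity) (Real.exp_pos _).le
      _ = _ := mul_one _
  · rw [map_mul]
    calc v (τ (z t / z i₀) - z t / z i₀) * v (z s / z i₀)
        ≤ Real.exp (-Real.log (nv v)) * 1 :=
          mul_le_mul (hsm t) (hle s) (by positivity) (Real.exp_pos _).le
      _ = _ := mul_one _

/-- the classes of the inertia group -/
lemma classes_inertia {x : Fin (1 + 1) → L} (hx : x ≠ 0) :
    Classes v (fun (σ : Gal(L/K)) i => σ (x i)) ∅
      (Nat.card Gal(L/K) / Nat.card ((mi v).inertia Gal(L/K))) (Real.log (nv v)) := by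
  classical
  set I := (mi v).inertia Gal(L/K) with hI
  have : Fintype (Gal(L/K) ⧸ I) := Fintype.ofFinite _
  refine ⟨Gal(L/K) ⧸ I, fun σ => ((σ⁻¹ : Gal(L/K)) : Gal(L/K) ⧸ I), Finset.univ, ?_,
    fun σ _ => Finset.mem_univ _, ?_⟩
  · rw [Finset.card_univ, ← Nat.card_eq_fintype_card,
      Subgroup.card_eq_card_quotient_mul_card_subgroup I,
      Nat.mul_div_cancel _ Nat.card_pos]
  · intro σ σ' _ _ h
    have h1 : (σ⁻¹)⁻¹ * σ'⁻¹ ∈ I := QuotientGroup.eq.mp h
    rw [inv_inv] at h1
    have hz : (fun i => σ' (x i)) ≠ 0 := by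
      intro h0
      apply hx
      funext i
      have := congrFun h0 i
      simpa using this
    have h2 := near_inertia (v := v) h1 hz
    have h3 : (fun i => (σ * σ'⁻¹) (σ' (x i))) = fun i => σ (x i) := by
      funext i
      rw [← AlgEquiv.mul_apply, inv_mul_cancel_right]
    rw [h3] at h2
    exact h2

end Loc

lemma arith {D e : ℕ} (he : 2 ≤ e) (hdvd : e ∣ D) :
    e * D ≤ 8 * (((e + 1) / 2) * (D - D / e * ((e + 1) / 2))) := by
  obtain ⟨f, rfl⟩ := hdvd
  rw [Nat.mul_div_cancel_left f (by omega)]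
  set s := (e + 1) / 2 with hs
  have h1 : e ≤ 2 * s := by omega
  have h2 : 4 * s ≤ 3 * e := by omega
  have h3 : 4 * (f * s) ≤ 3 * (e * f) := by nlinarith
  have h4 : e * f ≤ 4 * (e * f - f * s) := by omega
  calc e * (e * f) ≤ (2 * s) * (4 * (e * f - f * s)) := Nat.mul_le_mul h1 h4
    _ = _ := by ring

end Ram

open Ram in
theorem ramSum (hD : DetVar) : RamSum := by
  intro K _ _ L _ _ _ _ F q c a A hB hq hF hc x hx hprop S hS
  classical
  have hcard : Fintype.card Gal(L/K) = finrank K L := by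
    rw [← Nat.card_eq_fintype_card]
    exact IsGalois.card_aut_eq_finrank K L
  have hDpos : 0 < finrank K L := finrank_pos
  set p : Gal(L/K) → Fin (1 + 1) → L := fun σ i => σ (x i) with hp
  set T : Finset (FinitePlace L) := S.biUnion fun P => TP L P with hT
  set e : FinitePlace L → ℕ := fun v => Nat.card ((mi v).inertia Gal(L/K)) with he
  have hp0 : ∀ σ, p σ ≠ 0 := by
    intro σ h0
    apply hx
    funext i
    have := congrFun h0 i
    simpa [hp] using this
  have hpp : ∀ σ τ, σ ≠ τ → ∀ b : L, p σ ≠ b • p τ := by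
    intro σ τ hne b h
    refine hprop (τ⁻¹ * σ) (fun h1 => hne (inv_mul_eq_one.mp h1).symm) (τ⁻¹ b) ?_
    funext i
    have h1 := congrFun h i
    simp only [hp, Pi.smul_apply, smul_eq_mul] at h1 ⊢
    rw [AlgEquiv.mul_apply, h1, map_mul, ← AlgEquiv.mul_apply, inv_mul_cancel]
    rfl
  have hGR : ∀ v ∈ T, GR v F q := by
    intro v hv
    obtain ⟨P, hP, hvP⟩ := Finset.mem_biUnion.mp hv
    obtain ⟨h1, h2, h3, -⟩ := hS P hP
    exact h3.gr h2 (by omega) hvP
  have hcan : ∀ σ, canH F q (p σ) ≤ canH F q x := fun σ =>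
    (Pool.Agent.R829.DL.canH_hom (σ : L →ₐ[K] L) F q x).le
  have key := hD K L Gal(L/K) F q c a A hB hq hF hc p hp0 hpp (by rw [hcard]; exact hDpos) T hGR
    (fun v => Nat.card Gal(L/K) / e v) (fun v => (e v + 1) / 2)
    (fun v _ => classes_inertia hx) (canH F q x) hcan
  rw [hcard] at key
  have hNc : Nat.card Gal(L/K) = finrank K L := IsGalois.card_aut_eq_finrank K L
  rw [hNc] at key
  -- the lower bound at a place
  have hloc : ∀ P ∈ S, ∀ v ∈ TP L P, ew K v * finrank K L ≤
      8 * (Real.log (nv v) * ((((e v + 1) / 2 : ℕ) : ℝ) *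
        ((finrank K L - finrank K L / e v * ((e v + 1) / 2) : ℕ) : ℝ))) := by
    intro P hP v hv
    obtain ⟨h1, h2, -, h4⟩ := hS P hP
    have h5 := card_inertia (K := K) h2 hv
    have hlog := log_nv_pos v
    have h6 : e v = (mi v).ramificationIdx (𝓞 K) := by
      have h7 : (Nat.card ((mi v).inertia Gal(L/K)) : ℝ) * Real.log (nv v) =
          ((mi v).ramificationIdx (𝓞 K) : ℝ) * Real.log (nv v) := h5
      have h8 := mul_right_cancel₀ hlog.ne' h7
      exact_mod_cast h8
    have he2 : 2 ≤ e v := by rw [h6]; exact h4 v hv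
    have hdvd : e v ∣ finrank K L := by
      rw [← hNc]
      exact Subgroup.card_subgroup_dvd_card _
    have h9 := arith he2 hdvd
    have h10 : ((e v : ℝ)) * finrank K L ≤ 8 * ((((e v + 1) / 2 : ℕ) : ℝ) *
        ((finrank K L - finrank K L / e v * ((e v + 1) / 2) : ℕ) : ℝ)) := by
      exact_mod_cast h9
    rw [← h5]
    calc (Nat.card ((mi v).inertia Gal(L/K)) : ℝ) * Real.log (nv v) * finrank K L
        = Real.log (nv v) * ((e v : ℝ) * finrank K L) := by
          simp only [he]
          ring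
      _ ≤ Real.log (nv v) * (8 * ((((e v + 1) / 2 : ℕ) : ℝ) *
        ((finrank K L - finrank K L / e v * ((e v + 1) / 2) : ℕ) : ℝ))) :=
          mul_le_mul_of_nonneg_left h10 hlog.le
      _ = _ := by ring
  -- the sum over the places
  have hdisj : (S : Set (Ideal (𝓞 K))).PairwiseDisjoint fun P => TP L P := by
    intro P hP P' hP' hne
    rw [Function.onFun, Finset.disjoint_left]
    intro v hv hv'
    apply hne
    obtain ⟨h1, h2, -, -⟩ := hS P hP
    obtain ⟨h1', h2', -, -⟩ := hS P' hP'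
    have h3 := liesOver_of_mem h2 hv
    have h4 := liesOver_of_mem h2' hv'
    rw [h3.over, h4.over]
  have hsum : (∑ P ∈ S, Real.log (Ideal.absNorm P)) * (finrank K L * finrank K L : ℝ) ≤
      8 * (finrank ℚ L * (finrank K L * (finrank K L * canH F q x +
        hC A a * ((c + q : ℕ) * (1 + Nat.log 2 (finrank K L) : ℕ)) +
        Real.log (finrank K L)))) := by
    refine le_trans ?_ (mul_le_mul_of_nonneg_left key (by norm_num : (0 : ℝ) ≤ 8))
    rw [hT, Finset.sum_biUnion hdisj, Finset.mul_sum, Finset.sum_mul]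
    refine Finset.sum_le_sum fun P hP => ?_
    obtain ⟨h1, h2, -, -⟩ := hS P hP
    have h3 := sum_ew (K := K) (M := L) (P := P) h2
    rw [Finset.mul_sum]
    calc Real.log (Ideal.absNorm P) * (finrank K L * finrank K L : ℝ)
        = (∑ v ∈ TP L P, ew K v) * finrank K L := by rw [h3]; ring
      _ = ∑ v ∈ TP L P, ew K v * finrank K L := Finset.sum_mul _ _ _
      _ ≤ _ := Finset.sum_le_sum fun v hv => hloc P hP v hv
  have hfin : (finrank ℚ L : ℝ) = finrank ℚ K * finrank K L := by
    exact_mod_cast (finrank_mul_finrank ℚ K L).symm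
  rw [hfin] at hsum
  have hDR : (0 : ℝ) < finrank K L := by exact_mod_cast hDpos
  have hDD : (0 : ℝ) < finrank K L * finrank K L := mul_pos hDR hDR
  refine le_of_mul_le_mul_right (hsum.trans (le_of_eq ?_)) hDD
  ring

end Pool.Agent.N715.AB
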