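import Mathlib
import Pool.Agent.N715.AB.Stm
import Pool.Agent.R829.BG.Alg

/-!
Part RES of project AB: elimination of the second variable between an irreducible bivariate
polynomial and a polynomial it does not divide, by the resultant.
-/

set_option autoImplicit false

namespace Pool.Agent.N715.AB

open Polynomial
open Pool.Agent.R829.BG (XD dvd_of_C_mul)

/-- degree of the determinant of the Sylvester matrix -/
lemma natDegree_resultant_le {K : Type} [Field K] (g Φ : K[X][X]) (A A' m n : ℕ)
    (hg : XD A g) (hΦ : XD A' Φ) : (g.resultant Φ m n).natDegree ≤ A * n + A' * m := by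
  unfold Polynomial.resultant
  rw [Matrix.det_apply]
  refine natDegree_sum_le_of_forall_le _ _ fun σ _ => ?_
  refine (natDegree_smul_le _ _).trans ?_
  refine (natDegree_prod_le _ _).trans ?_
  rw [Fin.sum_univ_add]
  have h1 : ∑ j : Fin m, (g.sylvester Φ m n (σ (Fin.castAdd n j)) (Fin.castAdd n j)).natDegree ≤
      m * A' := by
    calc _ ≤ ∑ _j : Fin m, A' := Finset.sum_le_sum fun j _ => by
          simp only [sylvester, Matrix.of_apply, Fin.addCases_left]
          split_ifs
          · exact hΦ _
          · simp
      _ = _ := by simp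
  have h2 : ∑ j : Fin n, (g.sylvester Φ m n (σ (Fin.natAdd m j)) (Fin.natAdd m j)).natDegree ≤
      n * A := by
    calc _ ≤ ∑ _j : Fin n, A := Finset.sum_le_sum fun j _ => by
          simp only [sylvester, Matrix.of_apply, Fin.addCases_right]
          split_ifs
          · exact hg _
          · simp
      _ = _ := by simp
  calc _ ≤ m * A' + n * A := add_le_add h1 h2
    _ = _ := by ring

/-- clearing denominators in a divisibility over the fraction field -/
lemma exists_C_dvd {K : Type} [Field K] {g Φ : K[X][X]}
    (h : g.map (algebraMap K[X] (FractionRing K[X])) ∣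
      Φ.map (algebraMap K[X] (FractionRing K[X]))) :
    ∃ d : K[X], d ≠ 0 ∧ g ∣ C d * Φ := by
  obtain ⟨q, hq⟩ := h
  obtain ⟨d, hdm, hd⟩ := IsLocalization.integerNormalization_spec (nonZeroDivisors K[X]) q
  refine ⟨d, nonZeroDivisors.ne_zero hdm, IsLocalization.integerNormalization
    (nonZeroDivisors K[X]) q, ?_⟩
  apply Polynomial.map_injective _ (IsFractionRing.injective K[X] (FractionRing K[X]))
  rw [Polynomial.map_mul, Polynomial.map_mul, hd, hq, Polynomial.map_C]
  rw [Algebra.smul_def]
  rw [Polynomial.algebraMap_apply]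
  ring

theorem resLem : ResLem := by
  intro K _ g Φ A A' b b' hirr hdeg hb hXg hb' hXΦ hnd
  have hprim : g.IsPrimitive := hirr.isPrimitive (by omega)
  have hirr' : Irreducible (g.map (algebraMap K[X] (FractionRing K[X]))) :=
    (hprim.irreducible_iff_irreducible_map_fraction_map).1 hirr
  have hcop : IsCoprime (g.map (algebraMap K[X] (FractionRing K[X])))
      (Φ.map (algebraMap K[X] (FractionRing K[X]))) := by
    rw [hirr'.coprime_iff_not_dvd]
    intro h
    obtain ⟨d, hd, h⟩ := exists_C_dvd h
    exact hnd (dvd_of_C_mul hprim hd h)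
  have hinj := IsFractionRing.injective K[X] (FractionRing K[X])
  have hne : g.resultant Φ ≠ 0 := by
    intro h0
    have h1 := resultant_ne_zero _ _ hcop
    rw [natDegree_map_eq_of_injective hinj, natDegree_map_eq_of_injective hinj,
      resultant_map_map, h0, map_zero] at h1
    exact h1 rfl
  obtain ⟨p, q, -, -, e⟩ := exists_mul_add_mul_eq_C_resultant (m := g.natDegree)
    (n := Φ.natDegree) g Φ le_rfl le_rfl (Or.inl (by omega))
  refine ⟨g.resultant Φ, p, q, hne, ?_, ?_⟩
  · refine (natDegree_resultant_le g Φ A A' _ _ hXg hXΦ).trans ?_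
    exact add_le_add (Nat.mul_le_mul_left _ hb') (Nat.mul_le_mul_left _ hb)
  · rw [← e]; ring

end Pool.Agent.N715.AB
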