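import Mathlib
import Pool.Agent.N715.AB.Stm

/-!
Project AB, part (SEL): a prime of small norm outside a thin set of primes.
-/

set_option autoImplicit false

open NumberField Module

namespace Pool.Agent.N715.AB

namespace Sel

lemma cheb (n : ℕ) (hn : 10 ^ 8 ≤ n) : (n : ℝ) / 2 ≤ Chebyshev.theta n := by
  have h1 := Chebyshev.theta_ge n
  have hn' : ((10 : ℝ) ^ 8) ≤ n := by exact_mod_cast hn
  have hn0 : (0 : ℝ) < n := by linarith [show (0 : ℝ) < 10 ^ 8 by norm_num]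
  set u : ℝ := (n : ℝ) ^ (1 / 4 : ℝ) with hu
  have hu4 : u ^ 4 = n := by
    rw [hu, ← Real.rpow_natCast, ← Real.rpow_mul hn0.le]
    norm_num
  have hu0 : 0 < u := Real.rpow_pos_of_pos hn0 _
  have hu100 : 100 ≤ u := by
    by_contra h
    push Not at h
    have : u ^ 4 < 100 ^ 4 := pow_lt_pow_left₀ h hu0.le (by norm_num)
    rw [hu4] at this
    linarith [show (100 : ℝ) ^ 4 = 10 ^ 8 by norm_num]
  have hs : Real.sqrt n = u ^ 2 := by
    rw [← hu4, show u ^ 4 = (u ^ 2) ^ 2 by ring, Real.sqrt_sq (by positivity)]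
  have hl : Real.log n ≤ 4 * u := by
    have h2 : Real.log n = 4 * Real.log u := by rw [← hu4, Real.log_pow]; norm_num
    rw [h2]
    have := Real.log_le_sub_one_of_pos hu0
    linarith
  have hl2 : Real.log (n + 1) ≤ 4 * u + 1 := by
    have h2 : Real.log (n + 1) ≤ Real.log (n * 2) :=
      Real.log_le_log (by positivity) (by linarith)
    rw [Real.log_mul hn0.ne' (by norm_num)] at h2
    have := Real.log_two_lt_d9
    linarith
  have h2 := Real.log_two_gt_d9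
  rw [hs] at h1
  have h3 : 2 * u ^ 2 * Real.log n ≤ 8 * u ^ 3 := by
    calc 2 * u ^ 2 * Real.log n ≤ 2 * u ^ 2 * (4 * u) := by gcongr
      _ = 8 * u ^ 3 := by ring
  have h4 : (n : ℝ) * (0.19) ≤ n * (Real.log 2 - 1 / 2) := by
    apply mul_le_mul_of_nonneg_left _ hn0.le
    linarith
  have h5 : 8 * u ^ 3 + (4 * u + 1) ≤ n * 0.19 := by
    rw [← hu4]
    nlinarith [pow_pos hu0 3, pow_pos hu0 2, mul_le_mul_of_nonneg_right hu100 (pow_pos hu0 3).le,
      mul_le_mul_of_nonneg_right hu100 (pow_pos hu0 2).le]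
  linarith

lemma exP (K : Type) [Field K] [NumberField K] (p : ℕ) (hp : p.Prime) :
    ∃ P : Ideal (𝓞 K), P.IsMaximal ∧ P ≠ ⊥ ∧ (p : 𝓞 K) ∈ P ∧ p ≤ Ideal.absNorm P ∧
      Ideal.absNorm P ≤ p ^ finrank ℚ K := by
  have hnorm : Ideal.absNorm (Ideal.span {(p : 𝓞 K)}) = p ^ finrank ℚ K := by
    rw [Ideal.absNorm_span_natCast, RingOfIntegers.rank]
  have hd : finrank ℚ K ≠ 0 := finrank_pos.ne'
  have hne : Ideal.span {(p : 𝓞 K)} ≠ ⊤ := by
    intro h
    rw [h, Ideal.absNorm_top] at hnorm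
    exact (Nat.one_lt_pow hd hp.one_lt).ne hnorm
  obtain ⟨P, hP, hle⟩ := Ideal.exists_le_maximal _ hne
  have hpP : (p : 𝓞 K) ∈ P := hle (Ideal.mem_span_singleton_self _)
  have hdvd := Ideal.absNorm_dvd_absNorm_of_le hle
  rw [hnorm] at hdvd
  obtain ⟨f, hf, hPf⟩ := (Nat.dvd_prime_pow hp).1 hdvd
  refine ⟨P, hP, ?_, hpP, ?_, ?_⟩
  · rintro rfl
    rw [Ideal.mem_bot] at hpP
    exact hp.ne_zero (by exact_mod_cast hpP)
  · have hf1 : f ≠ 0 := by
      rintro rfl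
      rw [pow_zero, Ideal.absNorm_eq_one_iff] at hPf
      exact hP.ne_top hPf
    rw [hPf]
    exact Nat.le_self_pow hf1 p
  · rw [hPf]
    exact Nat.pow_le_pow_right hp.pos hf

lemma not_both {R : Type} [CommRing R] {P : Ideal R} (hP : P ≠ ⊤) {a b : ℕ} (hab : Nat.Coprime a b)
    (ha : (a : R) ∈ P) (hb : (b : R) ∈ P) : False := by
  apply hP
  rw [Ideal.eq_top_iff_one]
  have h1 : IsCoprime (a : ℤ) (b : ℤ) := Nat.isCoprime_iff_coprime.2 hab
  obtain ⟨u, v, huv⟩ := h1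
  have h2 : (u : R) * a + v * b = 1 := by exact_mod_cast congrArg (Int.cast : ℤ → R) huv
  rw [← h2]
  exact P.add_mem (P.mul_mem_left _ ha) (P.mul_mem_left _ hb)

end Sel

open Sel in
/-- (SEL) a prime of small norm outside a thin set -/
theorem primeSel : PrimeSel := by
  intro κ nb hκ hnb
  have hnb1 : (1 : ℝ) ≤ nb := by exact_mod_cast Nat.one_le_iff_ne_zero.2 hnb
  have hlog : 0 ≤ Real.log nb := Real.log_nonneg hnb1
  refine ⟨10 ^ 8 + 4 + 2 * Real.log nb, by positivity, ?_⟩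
  intro K _ _ hK bad Y hY hbad
  classical
  set C : ℝ := 10 ^ 8 + 4 + 2 * Real.log nb with hC
  set n : ℕ := ⌊C * (Y + 1)⌋₊ with hn
  have hCY : 0 ≤ C * (Y + 1) := by positivity
  have hn1 : C * (Y + 1) - 1 < n := by
    have := Nat.lt_floor_add_one (C * (Y + 1))
    linarith
  have hn2 : (n : ℝ) ≤ C * (Y + 1) := Nat.floor_le hCY
  have hnbig : 10 ^ 8 ≤ n := by
    have h1 : ((10 : ℝ) ^ 8) < n := by
      have : C * 1 ≤ C * (Y + 1) := by gcongr; linarith
      rw [hC] at this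
      nlinarith
    exact_mod_cast h1.le
  have hθ := cheb n hnbig
  have hθ2 : Y + Real.log nb < Chebyshev.theta n := by
    have h1 : (4 + 2 * Real.log nb) * (Y + 1) ≤ C * (Y + 1) := by
      gcongr
      rw [hC]
      linarith [show (0 : ℝ) ≤ 10 ^ 8 by norm_num]
    have h2 : 0 ≤ Real.log nb * Y := by positivity
    nlinarith
  choose P hPm hPb hpP hP1 hP2 using fun p : {p : ℕ // p.Prime} => exP K p.1 p.2
  set Pr : Finset ℕ := (Nat.primesLE n).filter (fun p => ¬ p ∣ nb) with hPr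
  have hPrp : ∀ p ∈ Pr, p.Prime ∧ p ≤ n ∧ ¬ p ∣ nb := by
    intro p hp
    rw [hPr, Finset.mem_filter, Nat.mem_primesLE] at hp
    exact ⟨hp.1.2, hp.1.1, hp.2⟩
  set g : ℕ → Ideal (𝓞 K) := fun p => if h : p.Prime then P ⟨p, h⟩ else ⊥ with hg
  have hgp : ∀ p (h : p.Prime), g p = P ⟨p, h⟩ := fun p h => by rw [hg]; simp [h]
  have hnbP : ∀ p (h : p.Prime), ¬ p ∣ nb → (nb : 𝓞 K) ∉ P ⟨p, h⟩ := by
    intro p h hdvd hmem
    exact not_both (hPm ⟨p, h⟩).ne_top ((Nat.Prime.coprime_iff_not_dvd h).2 hdvd) (hpP ⟨p, h⟩) hmem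
  by_cases hex : ∃ p ∈ Pr, ¬ bad (g p)
  · obtain ⟨p, hp, hb⟩ := hex
    obtain ⟨h1, h2, h3⟩ := hPrp p hp
    rw [hgp p h1] at hb
    refine ⟨P ⟨p, h1⟩, hPm _, hPb _, hnbP p h1 h3, hb, ?_⟩
    have h4 : Ideal.absNorm (P ⟨p, h1⟩) ≤ n ^ κ :=
      (hP2 ⟨p, h1⟩).trans ((Nat.pow_le_pow_right h1.pos hK).trans (Nat.pow_le_pow_left h2 κ))
    calc (Ideal.absNorm (P ⟨p, h1⟩) : ℝ) ≤ ((n ^ κ : ℕ) : ℝ) := by exact_mod_cast h4
      _ = (n : ℝ) ^ κ := by push_cast; ring
      _ ≤ (C * (Y + 1)) ^ κ := pow_le_pow_left₀ (Nat.cast_nonneg n) hn2 κ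
  · exfalso
    push Not at hex
    have hinj : Set.InjOn g Pr := by
      intro p hp q hq hpq
      obtain ⟨h1, -, -⟩ := hPrp p hp
      obtain ⟨h2, -, -⟩ := hPrp q hq
      by_contra hne
      rw [hgp p h1, hgp q h2] at hpq
      have h3 := hpP ⟨q, h2⟩
      rw [← hpq] at h3
      exact not_both (hPm ⟨p, h1⟩).ne_top ((Nat.coprime_primes h1 h2).2 hne) (hpP ⟨p, h1⟩) h3
    have h1 := hbad (Pr.image g) (by
      intro Q hQ
      obtain ⟨p, hp, rfl⟩ := Finset.mem_image.1 hQ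
      obtain ⟨h1, h2, h3⟩ := hPrp p hp
      have h4 := hex p hp
      rw [hgp p h1] at h4 ⊢
      exact ⟨hPm _, hPb _, hnbP p h1 h3, h4⟩)
    rw [Finset.sum_image hinj] at h1
    have h2 : ∑ p ∈ Pr, Real.log p ≤ ∑ p ∈ Pr, Real.log (Ideal.absNorm (g p)) := by
      refine Finset.sum_le_sum fun p hp => ?_
      obtain ⟨h1, -, -⟩ := hPrp p hp
      rw [hgp p h1]
      exact Real.log_le_log (by exact_mod_cast h1.pos) (by exact_mod_cast hP1 ⟨p, h1⟩)
    have h3 : Chebyshev.theta n = ∑ p ∈ Pr, Real.log p +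
        ∑ p ∈ (Nat.primesLE n).filter (fun p => ¬ ¬ p ∣ nb), Real.log p := by
      rw [Chebyshev.theta_eq_sum_primesLE_log, hPr, Finset.sum_filter_add_sum_filter_not]
    have h4 : ∑ p ∈ (Nat.primesLE n).filter (fun p => ¬ ¬ p ∣ nb), Real.log p ≤ Real.log nb := by
      have h5 : ∑ p ∈ (Nat.primesLE n).filter (fun p => ¬ ¬ p ∣ nb), Real.log p ≤
          ∑ p ∈ nb.primeFactors, Real.log p := by
        refine Finset.sum_le_sum_of_subset_of_nonneg ?_ ?_
        · intro p hp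
          rw [Finset.mem_filter, Nat.mem_primesLE, not_not] at hp
          exact Nat.mem_primeFactors.2 ⟨hp.1.2, hp.2, hnb⟩
        · intro p hp _
          exact Real.log_nonneg (by exact_mod_cast (Nat.prime_of_mem_primeFactors hp).one_lt.le)
      refine h5.trans ?_
      rw [← Real.log_prod (fun p hp => by
        exact_mod_cast (Nat.prime_of_mem_primeFactors hp).ne_zero)]
      have h6 : ∏ p ∈ nb.primeFactors, p ≤ nb :=
        Nat.le_of_dvd (Nat.pos_of_ne_zero hnb) (Nat.prod_primeFactors_dvd nb)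
      apply Real.log_le_log
      · exact Finset.prod_pos fun p hp => by
          exact_mod_cast (Nat.prime_of_mem_primeFactors hp).pos
      · have h7 : ((∏ p ∈ nb.primeFactors, p : ℕ) : ℝ) ≤ nb := by exact_mod_cast h6
        rw [← Nat.cast_prod]
        exact h7
    linarith

end Pool.Agent.N715.AB
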