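import Pool.Agent.N715.AB.Stm
import Pool.Agent.R829.BG.Win
import Pool.Agent.R829.BG.Deg

/-!
# Project AB: descent of relations by the trace (helper99)
-/

set_option autoImplicit false

namespace Pool.Agent.N715.AB

open Polynomial
open Pool.Agent.R829.BG (XD bp bp_coeff_eq bp_XD bp_natDegree evalEval_eq)

noncomputable section

theorem ev_eq {K L : Type} [Field K] [Field L] [Algebra K L] {G : K[X][X]} {A b : ℕ}
    (hb : G.natDegree ≤ b) (hA : XD A G) (x y : L) :
    ev x y G = ∑ n ∈ Finset.range (b + 1), (∑ m ∈ Finset.range (A + 1),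
      algebraMap K L ((G.coeff n).coeff m) * x ^ m) * y ^ n := by
  unfold ev
  rw [evalEval_eq (A := A) (b := b) (natDegree_map_le.trans hb) (fun n => ?_)]
  · refine Finset.sum_congr rfl fun n _ => ?_
    congr 1
    refine Finset.sum_congr rfl fun m _ => ?_
    rw [coeff_map, coe_mapRingHom, coeff_map]
  · rw [coeff_map, coe_mapRingHom]
    exact natDegree_map_le.trans (hA n)

theorem traceDesc : TraceDesc := by
  intro K _ _ L _ _ _ _ θ hθ ι x G A b hG hb hA h
  classical
  -- a nonzero coefficient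
  obtain ⟨n₀, hn₀⟩ : ∃ n, G.coeff n ≠ 0 := by
    by_contra hcon
    push Not at hcon
    exact hG (Polynomial.ext (by simpa using hcon))
  obtain ⟨m₀, hm₀⟩ : ∃ m, (G.coeff n₀).coeff m ≠ 0 := by
    by_contra hcon
    push Not at hcon
    exact hn₀ (Polynomial.ext (by simpa using hcon))
  have hn₀b : n₀ < b + 1 := Nat.lt_succ_of_le ((le_natDegree_of_ne_zero hn₀).trans hb)
  have hm₀A : m₀ < A + 1 := Nat.lt_succ_of_le ((le_natDegree_of_ne_zero hm₀).trans (hA n₀))
  have : FiniteDimensional K L := Module.Finite.of_restrictScalars_finite ℚ K L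
  obtain ⟨lam, hlam⟩ : ∃ lam : L, Algebra.trace K L (lam * (G.coeff n₀).coeff m₀) ≠ 0 := by
    by_contra hcon
    push Not at hcon
    refine hm₀ ((traceForm_nondegenerate K L).1 _ fun y => ?_)
    rw [Algebra.traceForm_apply, mul_comm]
    exact hcon y
  set u : Fin (A + 1) × Fin (b + 1) → K := fun ij =>
    Algebra.trace K L (lam * (G.coeff (ij.2 : ℕ)).coeff (ij.1 : ℕ)) with hu
  have hcoef : ∀ n < b + 1, ∀ m < A + 1, ((bp u).coeff n).coeff m =
      Algebra.trace K L (lam * (G.coeff n).coeff m) := fun n hn m hm =>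
    bp_coeff_eq u ⟨m, hm⟩ ⟨n, hn⟩
  have h1 : (bp u).natDegree ≤ b := bp_natDegree u
  have h2 : XD A (bp u) := bp_XD u
  refine ⟨bp u, ?_, h1, h2, fun i => ?_⟩
  · intro h0
    have := hcoef n₀ hn₀b m₀ hm₀A
    rw [h0] at this
    simp only [coeff_zero] at this
    exact hlam this.symm
  rw [ev_eq h1 h2]
  have e1 : ∑ n ∈ Finset.range (b + 1), (∑ m ∈ Finset.range (A + 1),
      algebraMap K L (((bp u).coeff n).coeff m) * x i ^ m) * (θ (x i)) ^ n =
      ∑ σ : Gal(L/K), σ (lam * G.evalEval (σ⁻¹ (x i)) (σ⁻¹ (θ (x i)))) := by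
    have e2 : ∀ σ : Gal(L/K), σ (lam * G.evalEval (σ⁻¹ (x i)) (σ⁻¹ (θ (x i)))) =
        ∑ n ∈ Finset.range (b + 1), (∑ m ∈ Finset.range (A + 1),
          σ (lam * (G.coeff n).coeff m) * x i ^ m) * (θ (x i)) ^ n := by
      intro σ
      have e3 : ∀ z : L, σ (σ⁻¹ z) = z := fun z => AlgEquiv.apply_symm_apply σ z
      rw [evalEval_eq hb hA, map_mul, map_sum, Finset.mul_sum]
      refine Finset.sum_congr rfl fun n _ => ?_
      rw [map_mul, map_pow, e3, map_sum, ← mul_assoc, Finset.mul_sum]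
      congr 1
      refine Finset.sum_congr rfl fun m _ => ?_
      rw [map_mul, map_mul, map_pow, e3, mul_assoc]
    rw [Finset.sum_congr rfl fun σ _ => e2 σ, Finset.sum_comm]
    refine Finset.sum_congr rfl fun n hn => ?_
    rw [← Finset.sum_mul]
    congr 1
    rw [Finset.sum_comm]
    refine Finset.sum_congr rfl fun m hm => ?_
    rw [← Finset.sum_mul]
    congr 1
    rw [hcoef n (Finset.mem_range.1 hn) m (Finset.mem_range.1 hm), trace_eq_sum_automorphisms]
  rw [e1]
  refine Finset.sum_eq_zero fun σ _ => ?_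
  have e4 : σ⁻¹ (θ (x i)) = θ (σ⁻¹ (x i)) := by
    have := congrArg (fun g : Gal(L/K) => g (x i)) (hθ σ⁻¹)
    simp only [AlgEquiv.mul_apply] at this
    exact this.symm
  rw [e4, h σ⁻¹ i, mul_zero, map_zero]

end

end Pool.Agent.N715.AB
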