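import Mathlib
import Pool.Agent.N715.AB.Key2
import Pool.Agent.N715.AB.Ram
import Pool.Agent.N715.AB.Det
import Pool.Agent.N715.AB.Sel
import Pool.Agent.N715.AB.Num
import Pool.Agent.N715.AB.Trc
import Pool.Agent.N715.AB.Chn
import Pool.Agent.N715.AB.Res

/-!
The dynamical Lehmer inequality for abelian points.
-/

set_option autoImplicit false
set_option linter.unusedSectionVars false

namespace Pool.Agent.N715.AB

open NumberField Module Filter Topology
open Pool.Agent.W238.Leh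
open Pool.Agent.H627.LP (Wnd act_iter_smul)
open Pool.Agent.R829.DL (fod fod_iter fod_smul exists_rep canH_hom act_map iter_map inc)

noncomputable section

/-- degrees and heights of the wandering abelian points -/
def Pt (K : Type) [Field K] [NumberField K] (G : Fin (1 + 1) → MvPolynomial (Fin (1 + 1)) K)
    (q B D : ℕ) (h : ℝ) : Prop :=
  ∃ (k : Type) (_ : Field k) (_ : NumberField k) (_ : Algebra K k) (E : Type) (_ : Field E)
    (_ : NumberField E) (_ : Algebra k E) (_ : Algebra K E) (_ : IsScalarTower K k E)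
    (_ : IsAbelianGalois k E) (y : Fin (1 + 1) → E),
    finrank K k ≤ B ∧ y ≠ 0 ∧
    (∀ σ : Gal(E/k), σ ≠ 1 → ∀ b : E, (fun i => σ (y i)) ≠ b • y) ∧ Wnd G y ∧
    finrank k E = D ∧ canH G q y = h

section pt

variable {K k L : Type} [Field K] [NumberField K] [Field k] [NumberField k] [Field L]
  [NumberField L] [Algebra K k] [Algebra K L] [Algebra k L] [IsScalarTower K k L]
  {G : Fin (1 + 1) → MvPolynomial (Fin (1 + 1)) K} {q B : ℕ}

lemma exists_pt [IsAbelianGalois k L] (hG : ∀ i, (G i).IsHomogeneous q) (hk : finrank K k ≤ B)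
    {x : Fin (1 + 1) → L} (hx : x ≠ 0) (hw : Wnd G x) :
    Pt K G q B (finrank k (fod k x)) (canH G q x) := by
  obtain ⟨y, c, hc, hxy, ⟨t, ht⟩, hext⟩ := exists_rep (K := K) (k := k) hx rfl
  have hy0 : y ≠ 0 := by
    intro h
    rw [h] at ht
    exact zero_ne_one ht
  refine ⟨k, inferInstance, inferInstance, inferInstance, fod k x, inferInstance, inferInstance,
    inferInstance, inferInstance, inferInstance, inferInstance, y, hk, hy0, ?_, ?_, rfl, ?_⟩
  · intro σ hσ b hb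
    apply hσ
    have h1 := congrFun hb t
    simp only [Pi.smul_apply, ht, map_one, smul_eq_mul, mul_one] at h1
    have h2 := hext (fod k x) (σ : fod k x →ₐ[k] fod k x) (AlgHom.id k (fod k x)) (fun i => by
      have h3 := congrFun hb i
      rw [← h1, one_smul] at h3
      exact h3)
    ext z
    exact congrArg _ (DFunLike.congr_fun h2 z)
  · rintro ⟨m, n, hmn, d, hd, hd'⟩
    apply hw
    have h1 : ∀ n, (act G)^[n] x = c ^ (q ^ n) • fun i => inc K (fod k x) ((act G)^[n] y i) := by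
      intro n
      conv_lhs => rw [hxy]
      rw [act_iter_smul hG, iter_map]
    have hd0 : inc K (fod k x) d ≠ 0 := (map_ne_zero _).mpr hd
    refine ⟨m, n, hmn, c ^ (q ^ n) * inc K (fod k x) d * (c ^ (q ^ m))⁻¹, ?_, ?_⟩
    · exact mul_ne_zero (mul_ne_zero (pow_ne_zero _ hc) hd0) (inv_ne_zero (pow_ne_zero _ hc))
    · rw [h1, h1, hd', smul_smul, inv_mul_cancel_right₀ (pow_ne_zero _ hc)]
      funext i
      simp only [Pi.smul_apply, smul_eq_mul, map_mul]
      ring
  · conv_rhs => rw [hxy]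
    rw [canH_smul hG hc, canH_hom]

end pt

/-- **the lower bound** -/
theorem abelian_lehmer (hHG : HgtLem) (hLS : LastStep)
    (K : Type) [Field K] [NumberField K] (q : ℕ) (hq : 2 ≤ q)
    (F : Fin (1 + 1) → MvPolynomial (Fin (1 + 1)) K) (hF : ∀ i, (F i).IsHomogeneous q)
    (hmor : ∀ z : Fin (1 + 1) → AlgebraicClosure K, (∀ i, MvPolynomial.aeval z (F i) = 0) → z = 0)
    (B : ℕ) :
    ∃ C δ : ℝ, 0 < C ∧ 0 < δ ∧ δ ≤ 1 ∧ ∀ (k L : Type) [Field k] [NumberField k] [Field L]
      [NumberField L] [Algebra K k] [Algebra K L] [Algebra k L] [IsScalarTower K k L]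
      [IsAbelianGalois k L], finrank K k ≤ B →
      ∀ x : Fin (1 + 1) → L, x ≠ 0 → Wnd F x →
      ∃ h : ℝ, Tendsto (fun n : ℕ => Height.logHeight ((act F)^[n] x) /
          ((finrank ℚ L : ℝ) * (q : ℝ) ^ n)) atTop (𝓝 h) ∧
        1 / (C * (finrank k (fod k x) : ℝ) ^ (1 - δ)) ≤ h := by
  classical
  obtain ⟨b, c, a, nb, A, hb0, hmod⟩ := exists_model K q hq F hF hmor (B + 1)
  obtain ⟨G, hG⟩ : ∃ G : Fin (1 + 1) → MvPolynomial (Fin (1 + 1)) K,
    G = fun i => MvPolynomial.C (b : K) * F i := ⟨_, rfl⟩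
  rw [← hG] at hmod
  have hbK : (b : K) ≠ 0 := RingOfIntegers.coe_ne_zero_iff.mpr hb0
  have hhom : ∀ i, (G i).IsHomogeneous q := by
    intro i
    have h7 := (MvPolynomial.isHomogeneous_C (Fin (1 + 1)) (b : K)).mul (hF i)
    rw [zero_add] at h7
    rw [hG]
    exact h7
  have hmor' : ∀ z : Fin (1 + 1) → AlgebraicClosure K, (∀ i, MvPolynomial.aeval z (G i) = 0) →
      z = 0 := by
    intro z hz
    apply hmor
    intro i
    have h1 := hz i
    simp only [hG, map_mul, MvPolynomial.aeval_C] at h1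
    refine (mul_eq_zero.mp h1).resolve_left ?_
    exact (FaithfulSMul.algebraMap_eq_zero_iff K (AlgebraicClosure K)).not.mpr hbK
  have hGDK : GD K G q c a nb A (finrank ℚ K * (B + 1)) := by
    have h1 := hmod K (by rw [finrank_self]; omega)
    have h2 : bch K G = G := by
      funext i
      exact MvPolynomial.map_id _
    rwa [h2] at h1
  have hB := hGDK.hB
  have hκ : 1 ≤ finrank ℚ K * (B + 1) := Nat.mul_pos finrank_pos (by omega)
  obtain ⟨C₁, C₂, J, m, hC₁, hC₂, hJ, hkey⟩ := key (ramSum detVar) primeSel parU traceDesc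
    (chain resLem) hHG hLS q c a nb A _ hκ hGDK.hnb hq hB.hC_nonneg
  obtain ⟨C₀, hC₀, hgen⟩ := general K 1 q hq G hhom hmor' 1 one_pos
  have hpos : ∀ D h, Pt K G q (B + 1) D h →
      1 ≤ D ∧ 0 < h := by
    rintro D h ⟨k, _, _, _, E, _, _, _, _, _, _, y, hk, hy, hy1, hw, rfl, rfl⟩
    have hfd : FiniteDimensional k E := Pool.Agent.R829.DL.fd_inter k E
    refine ⟨finrank_pos, ?_⟩
    exact lt_of_lt_of_le (Real.exp_pos _) ((hgen E).2.2.2 y hy hw)
  have hNor : ∀ D₀ : ℕ, ∃ c : ℝ, 0 < c ∧ ∀ D h, D ≤ D₀ → Pt K G q (B + 1) D h → c ≤ h := by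
    intro D₀
    refine ⟨Real.exp (-(C₀ * (((B + 1) * D₀ : ℕ) : ℝ) ^ (((1 : ℕ) : ℝ) + 1))), Real.exp_pos _, ?_⟩
    rintro D h hD ⟨k, _, _, _, E, _, _, _, _, _, _, y, hk, hy, hy1, hw, rfl, rfl⟩
    refine le_trans ?_ ((hgen E).2.2.2 y hy hw)
    apply Real.exp_le_exp.mpr
    apply neg_le_neg
    apply mul_le_mul_of_nonneg_left _ hC₀.le
    apply Real.rpow_le_rpow (by positivity) _ (by positivity)
    rw [← finrank_mul_finrank K k E]
    exact_mod_cast Nat.mul_le_mul hk hD
  obtain ⟨C, δ, hC, hδ, hδ1, hfin⟩ := numInd (Pt K G q (B + 1)) C₁ C₂ 0 (finrank ℚ K * (B + 1))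
    J q m hC₁ hC₂ le_rfl hκ hJ (by omega) hpos hNor (by
      rintro D h ⟨k, _, _, _, E, _, _, _, _, _, _, y, hk, hy, hy1, hw, rfl, rfl⟩
      have hfd : FiniteDimensional k E := Pool.Agent.R829.DL.fd_inter k E
      have hGDk := hmod k hk
      have h0 : 0 < canH G q y := lt_of_lt_of_le (Real.exp_pos _) ((hgen E).2.2.2 y hy hw)
      obtain ⟨N, hN1, hN2, hN3⟩ := hkey k E (bch k G) hGDk
        (fun σ τ => (IsMulCommutative.is_comm (M := Gal(E/k))).comm σ τ) y hy hy1 (Wnd_bch hw)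
        (by rwa [canH_bch])
      rw [canH_bch] at hN2 hN3
      refine ⟨N, hN1, hN2, ?_⟩
      rcases hN3 with h1 | h1
      · exact Or.inl h1
      · right
        refine ⟨_, h1, ?_⟩
        rw [act_bch_iter]
        have h2 : canH G q ((act G)^[m] y) = (q : ℝ) ^ m * canH G q y := hB.canH_iter hq hy m
        rw [← h2]
        refine exists_pt hhom hk (hB.iter_ne_zero hy m) ?_
        rintro ⟨s, t, hst, d, hd, hd'⟩
        rw [← Function.iterate_add_apply, ← Function.iterate_add_apply] at hd'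
        exact hw ⟨s + m, t + m, by omega, d, hd, hd'⟩)
  refine ⟨C, δ, hC, hδ, hδ1, fun k L _ _ _ _ _ _ _ _ _ hk x hx hw => ?_⟩
  have hB' : Bds (fun i => MvPolynomial.C (b : K) * F i) q A a := by
    rw [← hG]
    exact hB
  obtain ⟨h1, h2⟩ := Pool.Agent.H627.LR.transfer_scale hb0 hF hq hB' hx
  rw [← hG] at h1 h2
  refine ⟨canH G q x, h2, ?_⟩
  exact hfin _ _ (exists_pt (B := B + 1) hhom (by omega) hx (h1 hw))

end

end Pool.Agent.N715.AB
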