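import Pool.Agent.N715.AB.Stm
import Pool.Agent.R829.BG.Deg

/-!
Project AB, part HGT (helper692): an irreducible relation between elements of equal large heights.
-/

set_option autoImplicit false
set_option linter.unusedSectionVars false

namespace Pool.Agent.N715.AB

open NumberField Module Polynomial
open Pool.Agent.R829.BG (XD XD_iff xd xd_mul bp bp_coeff_eq bp_eq_zero bp_zero bp_add bp_smul bp_XD
  bp_natDegree height_ineq)

noncomputable section

namespace Hgt

section evl

variable {K L : Type} [Field K] [Field L] [Algebra K L] (x y : L)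

lemma ev_mul (G H : K[X][X]) : ev x y (G * H) = ev x y G * ev x y H := by
  unfold ev
  rw [Polynomial.map_mul, evalEval_mul]

lemma ev_add (G H : K[X][X]) : ev x y (G + H) = ev x y G + ev x y H := by
  unfold ev
  rw [Polynomial.map_add, evalEval_add]

lemma ev_sub (G H : K[X][X]) : ev x y (G - H) = ev x y G - ev x y H := by
  unfold ev
  rw [Polynomial.map_sub, evalEval_sub]

lemma ev_zero : ev x y (0 : K[X][X]) = 0 := by
  unfold ev
  rw [Polynomial.map_zero, evalEval_zero]

lemma ev_C (f : K[X]) : ev x y (C f : K[X][X]) = aeval x f := by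
  unfold ev
  rw [Polynomial.map_C, evalEval_C, coe_mapRingHom, eval_map_algebraMap]

lemma ev_bp {r c : ℕ} (u : Fin r × Fin c → K) :
    ev x y (bp u) = (bp fun ij => algebraMap K L (u ij)).evalEval x y := by
  unfold ev
  congr 1
  unfold bp
  rw [Polynomial.map_sum]
  refine Finset.sum_congr rfl fun ij _ => ?_
  rw [map_monomial, coe_mapRingHom, map_monomial]

end evl

end Hgt

open Hgt

/-- **(HGT)** an irreducible relation between elements of equal large heights is balanced. -/
theorem hgtLem (hR : ResLem) : HgtLem := by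
  classical
  intro K _ _ L _ _ _ g hg hg1 hinf
  rw [XD_iff]
  change xd g ≤ _
  by_contra hcon
  push Not at hcon
  obtain ⟨a, ha⟩ : ∃ a, a = xd g := ⟨_, rfl⟩
  obtain ⟨b, hb⟩ : ∃ b, b = g.natDegree := ⟨_, rfl⟩
  rw [← ha, ← hb] at hcon
  have hb1 : 1 ≤ b := hb ▸ hg1
  obtain ⟨t, ht⟩ : ∃ t, t = a * b := ⟨_, rfl⟩
  obtain ⟨n, hn⟩ : ∃ n, n = t + 1 + a := ⟨_, rfl⟩
  have hbt : b ≤ t := by
    rw [ht]
    exact Nat.le_mul_of_pos_left _ (by omega)
  have hTX : XD a g := XD_iff.mpr (le_of_eq ha.symm)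
  have hg0 : g ≠ 0 := hg.ne_zero
  -- the linear system
  set Ψ : ((Fin a × Fin (t + 1) → K) × (Fin a × Fin (t + 1) → K) ×
      (Fin n × Fin (t + 1 - b) → K)) →ₗ[K] (Fin (n + a) × Fin (t + 1) → K) :=
    { toFun := fun z ij => ((bp z.1 * C (X ^ n) - bp z.2.1 - g * bp z.2.2).coeff ij.2).coeff ij.1
      map_add' := fun z z' => by
        funext ij
        simp only [Prod.fst_add, Prod.snd_add, bp_add, Pi.add_apply]
        rw [← coeff_add, ← coeff_add]
        congr 2
        ring
      map_smul' := fun m z => by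
        funext ij
        simp only [Prod.smul_fst, Prod.smul_snd, bp_smul, Pi.smul_apply, RingHom.id_apply,
          smul_eq_mul]
        have h1 : C (C m) * bp z.1 * C (X ^ n) - C (C m) * bp z.2.1 - g * (C (C m) * bp z.2.2) =
            C (C m) * (bp z.1 * C (X ^ n) - bp z.2.1 - g * bp z.2.2) := by ring
        rw [h1, coeff_C_mul, coeff_C_mul] } with hΨ
  have hker : LinearMap.ker Ψ ≠ ⊥ := by
    apply LinearMap.ker_ne_bot_of_finrank_lt
    simp only [finrank_prod, finrank_fintype_fun_eq_card, Fintype.card_prod, Fintype.card_fin]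
    obtain ⟨t', ht'⟩ : ∃ t', t + 1 = t' + b := ⟨t + 1 - b, by omega⟩
    have h1 : t + 1 - b = t' := by omega
    rw [h1]
    have h2 : n * b < a * (t + 1) := by
      rw [hn, ht]
      obtain ⟨e, he⟩ : ∃ e, a = b + 1 + e := ⟨a - (b + 1), by omega⟩
      rw [he]
      nlinarith [Nat.zero_le e, Nat.zero_le b, mul_nonneg (Nat.zero_le e) (Nat.zero_le b)]
    have h3 : (n + a) * (t + 1) = n * t' + n * b + a * (t + 1) := by
      rw [add_mul, ht']
      ring
    rw [h3]
    omega
  obtain ⟨⟨α, δ, β⟩, hz, hz0⟩ := (Submodule.ne_bot_iff _).mp hker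
  rw [LinearMap.mem_ker] at hz
  set P : K[X][X] := bp α * C (X ^ n) - bp δ - g * bp β with hP
  have hcoef : ∀ (i j : ℕ), i < n + a → j < t + 1 → (P.coeff j).coeff i = 0 := by
    intro i j hi hj
    exact congrFun hz (⟨i, hi⟩, ⟨j, hj⟩)
  have hPX : XD (n + a - 1) P := by
    have h1 : XD ((a - 1) + n) (bp α * C (X ^ n) : K[X][X]) :=
      (bp_XD α).mul (XD.C (natDegree_X_pow_le n))
    have h2 : XD (a + (n - 1)) (g * bp β) := hTX.mul (bp_XD β)
    exact ((h1.mono (by omega)).sub ((bp_XD δ).mono (by omega))).sub (h2.mono (by omega))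
  have hPd : P.natDegree ≤ t := by
    refine (natDegree_sub_le _ _).trans (max_le ((natDegree_sub_le _ _).trans (max_le ?_ ?_)) ?_)
    · refine natDegree_mul_le.trans ?_
      rw [natDegree_C, add_zero]
      exact bp_natDegree α
    · exact bp_natDegree δ
    · rcases Nat.eq_zero_or_pos (t + 1 - b) with h0 | h0
      · omega
      · refine natDegree_mul_le.trans ?_
        have := bp_natDegree β
        omega
  have hP0 : P = 0 := by
    ext j i
    rw [coeff_zero, coeff_zero]
    by_cases hj : j < t + 1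
    · by_cases hi : i < n + a
      · exact hcoef i j hi hj
      · exact coeff_eq_zero_of_natDegree_lt (lt_of_le_of_lt (hPX j) (by omega))
    · rw [coeff_eq_zero_of_natDegree_lt (lt_of_le_of_lt hPd (by omega)), coeff_zero]
  -- `α` is not zero
  have hα : α ≠ 0 := by
    rintro rfl
    rw [hP, bp_zero, zero_mul, zero_sub] at hP0
    have h1 : bp δ = g * (-bp β) := by linear_combination -hP0
    by_cases hβ : bp β = 0
    · have h2 : bp δ = 0 := by rw [h1, hβ, neg_zero, mul_zero]
      apply hz0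
      rw [bp_eq_zero hβ, bp_eq_zero h2]
      rfl
    · have h2 := xd_mul hg0 (neg_ne_zero.mpr hβ)
      rw [← h1, ← ha] at h2
      have h3 : xd (bp δ) ≤ a - 1 := XD_iff.mp (bp_XD δ)
      omega
  have hα' : bp α ≠ 0 := fun h0 => hα (bp_eq_zero h0)
  have hdvd : ¬ g ∣ bp α := by
    rintro ⟨Q, hQ⟩
    have hQ0 : Q ≠ 0 := by
      rintro rfl
      exact hα' (by rw [hQ, mul_zero])
    have h2 := xd_mul hg0 hQ0
    rw [← hQ, ← ha] at h2
    have h3 : xd (bp α) ≤ a - 1 := XD_iff.mp (bp_XD α)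
    omega
  obtain ⟨c, U, V, hc0, -, hc⟩ := hR K g (bp α) a (a - 1) b _ hg hg1 (le_of_eq hb.symm) hTX
    (bp_natDegree α) (bp_XD α) hdvd
  -- the roots of `c`
  have hfin : {z : L | aeval z c = 0}.Finite := by
    have h1 : (c.map (algebraMap K L)) ≠ 0 := (Polynomial.map_ne_zero_iff (algebraMap K L).injective).2 hc0
    refine ((c.map (algebraMap K L)).roots.toFinset.finite_toSet).subset ?_
    intro z hz
    rw [Finset.mem_coe, Multiset.mem_toFinset, mem_roots h1, IsRoot.def, eval_map_algebraMap]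
    exact hz
  obtain ⟨B₁, hB₁⟩ : ∃ B₁ : ℝ, ∀ z : L, aeval z c = 0 → Height.logHeight₁ z ≤ B₁ := by
    obtain ⟨B₁, hB₁⟩ := (hfin.image (fun z => Height.logHeight₁ z)).bddAbove
    exact ⟨B₁, fun z hz => hB₁ ⟨z, hz, rfl⟩⟩
  obtain ⟨C₀, hC₀⟩ := height_ineq a t n (by omega) (fun ij => algebraMap K L (δ ij))
    (fun ij => algebraMap K L (α ij))
  obtain ⟨x, y, h1, hh, hB⟩ := hinf (max B₁ (max C₀ 0))
  have h2 : C₀ < Height.logHeight₁ x :=
    lt_of_le_of_lt ((le_max_left _ _).trans (le_max_right _ _)) hB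
  have h3 : 0 < Height.logHeight₁ x :=
    lt_of_le_of_lt ((le_max_right _ _).trans (le_max_right _ _)) hB
  have hne : ev x y (bp α) ≠ 0 := by
    intro h0
    have h4 : aeval x c = 0 := by
      rw [← ev_C x y, hc, ev_add, ev_mul, ev_mul, h1, h0, mul_zero, mul_zero, add_zero]
    exact absurd (hB₁ x h4) (not_le.2 (lt_of_le_of_lt (le_max_left _ _) hB))
  have h4 : ev x y (bp δ) = ev x y (bp α) * x ^ n := by
    have h5 := congrArg (ev x y) hP0
    rw [hP, ev_sub, ev_sub, ev_mul, ev_mul, h1, zero_mul, ev_C, ev_zero, sub_zero, map_pow,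
      aeval_X] at h5
    linear_combination -h5
  rw [ev_bp] at hne
  rw [ev_bp, ev_bp] at h4
  have h5 := hC₀ x y hne h4
  rw [hh, hn] at h5
  have h6 : ((a - 1 : ℕ) : ℝ) ≤ a := by exact_mod_cast Nat.sub_le a 1
  push_cast at h5
  have h7 := mul_le_mul_of_nonneg_right h6 h3.le
  nlinarith

end

end Pool.Agent.N715.AB
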