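import Mathlib
import Pool.Agent.N715.AB.Stm
import Pool.Agent.R829.BG.Num
import Pool.Agent.R829.BG.Cls
import Pool.Agent.R829.DL.Lev

/-!
Project AB: no point of small height and large degree satisfies a relation of small bidegree with
its Frobenius image.
-/

set_option autoImplicit false
set_option linter.unusedSectionVars false

namespace Pool.Agent.N715.AB

open NumberField Module Polynomial Filter
open Pool.Agent.W238.Leh (act canH Bds hC)
open Pool.Agent.H627.LP (FrobAt)
open Pool.Agent.H627.LR (GR GoodK)
open Pool.Agent.H627.LU (Classes)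
open Pool.Agent.H420R3 (mi nv TP)
open Pool.Agent.R829.BG (XD)

noncomputable section

section last

variable {K : Type} [Field K] {L : Type} [Field L] [Algebra K L]

/-- automorphisms and evaluation -/
theorem last_ev (σ : Gal(L/K)) (x y : L) (g : K[X][X]) : ev (σ x) (σ y) g = σ (ev x y g) := by
  unfold ev
  have h1 := map_mapRingHom_evalEval (f := (σ : L →+* L))
    (p := g.map (mapRingHom (algebraMap K L))) x y
  have h2 : (g.map (mapRingHom (algebraMap K L))).map (mapRingHom (σ : L →+* L)) =
      g.map (mapRingHom (algebraMap K L)) := by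
    rw [Polynomial.map_map]
    congr 1
    rw [Polynomial.mapRingHom_comp]
    congr 1
    ext k
    exact σ.commutes k
  rw [h2] at h1
  exact h1

/-- the number of the conjugates -/
theorem last_card [FiniteDimensional K L] [IsGalois K L] [DecidableEq L] [Fintype Gal(L/K)]
    (x : L) : (Finset.univ.image (fun σ : Gal(L/K) => σ x)).card = (minpoly K x).natDegree := by
  classical
  have hint : IsIntegral K x := IsIntegral.of_finite K x
  have hsep : (minpoly K x).Separable := IsGalois.separable K x
  have hspl : ((minpoly K x).map (algebraMap K L)).Splits := IsGalois.splits K x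
  rw [← card_rootSet_eq_natDegree hsep hspl, ← Set.toFinset_card]
  congr 1
  ext z
  rw [Set.mem_toFinset, mem_rootSet, Finset.mem_image]
  constructor
  · rintro ⟨σ, _, rfl⟩
    refine ⟨minpoly.ne_zero hint, ?_⟩
    have h1 : aeval (σ x) (minpoly K x) = σ (aeval x (minpoly K x)) :=
      aeval_algHom_apply (σ : L →ₐ[K] L) x (minpoly K x)
    rw [h1, minpoly.aeval, map_zero]
  · rintro ⟨_, hz⟩
    have h1 : IsConjRoot K x z := (isConjRoot_iff_aeval_eq_zero hint).2 hz
    obtain ⟨σ, hσ⟩ := isConjRoot_iff_exists_algEquiv.1 h1.symm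
    exact ⟨σ, Finset.mem_univ _, hσ⟩

end last

/-- (LAST) there is no point of small height and large degree satisfying a relation of small
bidegree with its image under Frobenius -/
theorem lastStep : LastStep := by
  classical
  intro K _ _ L _ _ _ _ F q c a A hB hq hF hc T θ Q b hT hθ hfr hbQ ω hω hsum g hg hdeg hX x hx
    hH hdeg2 hs
  have : FiniteDimensional K L := Module.Finite.of_restrictScalars_finite ℚ K L
  obtain ⟨ι, hι⟩ : ∃ ι : Finset L, ι = Finset.univ.image (fun σ : Gal(L/K) => σ x) := ⟨_, rfl⟩
  have hcard : Fintype.card ι = (minpoly K x).natDegree := by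
    rw [Fintype.card_coe, hι]
    exact last_card x
  have hmem : ∀ i : ι, ∃ σ : Gal(L/K), σ x = i := by
    rintro ⟨i, h1⟩
    have h2 : i ∈ Finset.univ.image (fun σ : Gal(L/K) => σ x) := hι ▸ h1
    obtain ⟨σ, _, h3⟩ := Finset.mem_image.1 h2
    exact ⟨σ, h3⟩
  have hx1 : (![x, 1] : Fin (1 + 1) → L) ≠ 0 := by
    intro h0
    have := congrFun h0 1
    simp at this
  refine Pool.Agent.R829.BG.step_last (K := K) (M := L) (ι := ι) hB hq hF hc T hT hsum hω
    (H := canH F q ![x, 1]) (fun i => (i : L)) Subtype.val_injective ?_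
    (t := b * (Q + 1) + 1) (by omega) (hB.canH_nonneg hq hx1) hH ?_ ?_ ?_
  · intro i
    obtain ⟨σ, hσ⟩ := hmem i
    have h1 := Pool.Agent.R829.DL.canH_hom (σ : L →ₐ[K] L) F q (![x, 1] : Fin (1 + 1) → L)
    have h2 : (fun j => (σ : L →ₐ[K] L) ((![x, 1] : Fin (1 + 1) → L) j)) = ![(i : L), 1] := by
      funext j
      fin_cases j
      · exact hσ
      · exact map_one σ
    rw [h2] at h1
    exact h1.le
  · intro v hv
    have hG : g.map (mapRingHom (algebraMap K L)) ≠ 0 := by
      rw [Ne, Polynomial.map_eq_zero_iff]
      · exact hg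
      · exact map_injective _ (algebraMap K L).injective
    refine Pool.Agent.R829.BG.classes_rel (hfr v hv) hbQ hG ?_ ?_ (fun i : ι => (i : L)) ?_
    · exact natDegree_map_le.trans hdeg
    · intro n
      rw [coeff_map]
      exact natDegree_map_le.trans (hX n)
    · intro i
      obtain ⟨σ, hσ⟩ := hmem i
      have h1 : θ (i : L) = σ (θ x) := by
        rw [← hσ]
        exact congrArg (fun τ : Gal(L/K) => τ x) (hθ σ)
      have h2 := last_ev σ x (θ x) g
      rw [hx, map_zero] at h2
      rw [h1, ← hσ]
      exact h2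
  · rw [hcard]
    exact hdeg2
  · rw [hcard]
    exact hs

end

end Pool.Agent.N715.AB
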